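import Mathlib

/-!
# Lax stability conditions: definitions

General definitions used in the answer to the question whether slices of lax stability
conditions have the Jordan-Hölder property: strict monomorphisms, simple objects, composition
series and the Jordan-Hölder property of a (quasi-abelian) category; the Grothendieck group of a
triangulated category; slicings in the sense of Bridgeland; lax (pre-)stability conditions.
-/

open CategoryTheory CategoryTheory.Limits CategoryTheory.Pretriangulated
open scoped TensorProduct

namespace Pool.Agent.H83.LaxStab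

universe v u

section QuasiAbelian

variable {E : Type u} [Category.{v} E] [HasZeroMorphisms E]

/-- A strict monomorphism (strict subobject): a morphism which is the kernel of some morphism.
In a category with kernels and cokernels these are exactly the monomorphisms which are the kernel
of their cokernel. -/
def IsStrictMono {X Y : E} (i : X ⟶ Y) : Prop := Nonempty (NormalMono i)

/-- A simple object: a nonzero object whose only strict subobjects are zero and itself. -/
structure IsSimpleObject (S : E) : Prop where
  not_isZero : ¬ IsZero S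
  isZero_or_isIso : ∀ ⦃X : E⦄ (i : X ⟶ S), IsStrictMono i → IsZero X ∨ IsIso i

/-- A composition series of `c`: a finite chain `0 = c₀ ⊂ c₁ ⊂ ⋯ ⊂ cₙ = c` of strict subobjects
of `c` such that every successive quotient (cokernel of `cᵢ ⟶ cᵢ₊₁`) is a simple object. -/
structure StrictCompositionSeries (c : E) where
  /-- the length `n` of the series -/
  length : ℕ
  /-- the objects `cᵢ` of the chain -/
  obj : Fin (length + 1) → E
  /-- the inclusion of `cᵢ` in `c` -/
  incl : ∀ i, obj i ⟶ c
  incl_strict : ∀ i, IsStrictMono (incl i)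
  isZero_bot : IsZero (obj 0)
  isIso_top : IsIso (incl (Fin.last length))
  /-- the inclusion of `cᵢ` in `cᵢ₊₁` -/
  step : ∀ i : Fin length, obj i.castSucc ⟶ obj i.succ
  step_incl : ∀ i : Fin length, step i ≫ incl i.succ = incl i.castSucc
  /-- the composition factors `cᵢ₊₁ / cᵢ` -/
  factor : Fin length → E
  /-- the projection of `cᵢ₊₁` on the factor -/
  proj : ∀ i : Fin length, obj i.succ ⟶ factor i
  step_proj : ∀ i : Fin length, step i ≫ proj i = 0
  isCokernel : ∀ i : Fin length, Nonempty (IsColimit (CokernelCofork.ofπ (proj i) (step_proj i)))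
  simple : ∀ i : Fin length, IsSimpleObject (factor i)

variable (E) in
/-- The Jordan-Hölder property: any two composition series of the same object have the same length
and, after a permutation, pairwise isomorphic factors. -/
def JordanHolderProperty : Prop :=
  ∀ (c : E) (s t : StrictCompositionSeries c),
    ∃ e : Fin s.length ≃ Fin t.length, ∀ i, Nonempty (s.factor i ≅ t.factor (e i))

end QuasiAbelian

section Triangulated

variable (C : Type u) [Category.{v} C] [Preadditive C] [HasZeroObject C] [HasShift C ℤ]
  [∀ n : ℤ, (shiftFunctor C n).Additive] [Pretriangulated C]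

/-- The relations `[Y] = [X] + [Z]`, one for each distinguished triangle `X ⟶ Y ⟶ Z ⟶ X⟦1⟧`. -/
def K0Relations : Set (FreeAbelianGroup C) :=
  {x | ∃ T : Triangle C, T ∈ distTriang C ∧
    x = FreeAbelianGroup.of T.obj₂ - FreeAbelianGroup.of T.obj₁ - FreeAbelianGroup.of T.obj₃}

/-- The Grothendieck group `K(C)` of a triangulated category. -/
abbrev K0 : Type u := FreeAbelianGroup C ⧸ AddSubgroup.closure (K0Relations C)

variable {C} in
/-- The class in `K(C)` of an object. -/
def K0.cls (X : C) : K0 C := QuotientAddGroup.mk (FreeAbelianGroup.of X)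

/-- A slicing in the sense of Bridgeland. -/
structure Slicing where
  /-- the full subcategory `P(φ)` of semistable objects of phase `φ` -/
  P : ℝ → ObjectProperty C
  isClosedUnderIsomorphisms : ∀ φ, (P φ).IsClosedUnderIsomorphisms
  zero_mem : ∀ φ (X : C), IsZero X → P φ X
  biproduct_mem : ∀ φ (X Y : C) (b : BinaryBicone X Y), Nonempty b.IsBilimit →
    P φ X → P φ Y → P φ b.pt
  shift_mem_iff : ∀ φ (X : C), P (φ + 1) (X⟦(1 : ℤ)⟧) ↔ P φ X
  hom_eq_zero : ∀ φ₁ φ₂, φ₂ < φ₁ → ∀ (X Y : C) (f : X ⟶ Y), P φ₁ X → P φ₂ Y → f = 0
  /-- every nonzero object `E` has a Harder-Narasimhan filtration: a tower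
  `0 = E₀ ⟶ E₁ ⟶ ⋯ ⟶ Eₙ = E` whose cones `Aᵢ` are nonzero semistable objects of
  strictly decreasing phases -/
  exists_HN : ∀ E : C, ¬ IsZero E → ∃ (n : ℕ) (phase : Fin n → ℝ) (obj : Fin (n + 1) → C)
    (A : Fin n → C), (∀ i j, i < j → phase j < phase i) ∧ IsZero (obj 0) ∧
      obj (Fin.last n) = E ∧
      ∀ i : Fin n, P (phase i) (A i) ∧ ¬ IsZero (A i) ∧
        ∃ (f : obj i.castSucc ⟶ obj i.succ) (g : obj i.succ ⟶ A i)
          (h : A i ⟶ (obj i.castSucc)⟦(1 : ℤ)⟧), Triangle.mk f g h ∈ distTriang C

end Triangulated

/-- A norm on the real vector space `ℝ ⊗ Λ`. -/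
structure LatticeNorm (Λ : Type) [AddCommGroup Λ] where
  /-- the underlying seminorm -/
  toSeminorm : Seminorm ℝ (ℝ ⊗[ℤ] Λ)
  definite : ∀ x, toSeminorm x = 0 → x = 0

section Stability

variable {C : Type u} [Category.{v} C] [Preadditive C] [HasZeroObject C] [HasShift C ℤ]
  [∀ n : ℤ, (shiftFunctor C n).Additive] [Pretriangulated C]
  {Λ : Type} [AddCommGroup Λ]

/-- A lax pre-stability condition `(P, Z)` with respect to `v : K(C) → Λ`: a slicing `P` and a
homomorphism `Z : Λ → ℂ` such that every nonzero `c` in `P(φ)` satisfies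
`Z(v(c)) = m e^{iπφ}` for some real `m ≥ 0` (its mass, which may be zero). -/
structure LaxPreStabilityCondition (v : K0 C →+ Λ) extends Slicing C where
  /-- the central charge -/
  Z : Λ →+ ℂ
  charge : ∀ φ (c : C), P φ c → ¬ IsZero c →
    ∃ m : ℝ, 0 ≤ m ∧ Z (v (K0.cls c)) = m * Complex.exp (Complex.I * Real.pi * φ)

/-- The mass `m(c)` of a semistable object `c`, namely `|Z(v(c))|`: it is the number `m ≥ 0` with
`Z(v(c)) = m e^{iπφ}`. -/
noncomputable def LaxPreStabilityCondition.mass {v : K0 C →+ Λ}
    (σ : LaxPreStabilityCondition v) (c : C) : ℝ := ‖σ.Z (v (K0.cls c))‖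

/-- A lax stability condition: a lax pre-stability condition for which some `K > 0` satisfies
`m(s) ≥ ‖v(s)‖ / K` for every massive stable object `s` (a stable object is a simple object of
some `P(φ)`, massive means of positive mass). -/
structure LaxStabilityCondition (v : K0 C →+ Λ) (N : LatticeNorm Λ) extends
    LaxPreStabilityCondition v where
  support : ∃ K : ℝ, 0 < K ∧ ∀ (φ : ℝ) (s : (P φ).FullSubcategory), IsSimpleObject s →
    0 < toLaxPreStabilityCondition.mass s.obj →
      N.toSeminorm ((1 : ℝ) ⊗ₜ[ℤ] v (K0.cls s.obj)) / K ≤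
        toLaxPreStabilityCondition.mass s.obj

end Stability

end Pool.Agent.H83.LaxStab
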