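import Pool.Agent.H83.LaxStab.Rep

/-!
# Euler characteristics on the bounded derived category of representations
-/

open CategoryTheory CategoryTheory.Limits CategoryTheory.Pretriangulated DerivedCategory
open scoped ZeroObject

set_option backward.defeqAttrib.useBackward true

namespace Pool.Agent.H83.LaxStab

universe w v u

variable {k : Type} [Field k]

/-- rank of a morphism of finite dimensional vector spaces -/
noncomputable def rk {X Y : FGModuleCat.{0} k} (f : X ⟶ Y) : ℕ :=
  Module.finrank k (LinearMap.range f.hom.hom)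

lemma finrank_eq_of_exact (S : ShortComplex (FGModuleCat.{0} k)) (hS : S.Exact) :
    Module.finrank k S.X₂ = rk S.f + rk S.g := by
  have h1 := (hS.map (forget₂ (FGModuleCat.{0} k) (ModuleCat.{0} k))).moduleCat_range_eq_ker
  have h2 : LinearMap.range S.f.hom.hom = LinearMap.ker S.g.hom.hom := h1
  unfold rk
  rw [h2, add_comm]
  exact (LinearMap.finrank_range_add_finrank_ker S.g.hom.hom).symm

/-- dimension at a vertex -/
noncomputable def dm (j : WalkingCospan) (M : Rep3 (FGModuleCat.{0} k)) : ℕ :=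
  Module.finrank k (M.obj j)

/-- rank at a vertex -/
noncomputable def rkv (j : WalkingCospan) {M N : Rep3 (FGModuleCat.{0} k)} (f : M ⟶ N) : ℕ :=
  rk (f.app j)

lemma dm_eq_of_exact (j : WalkingCospan) (S : ShortComplex (Rep3 (FGModuleCat.{0} k)))
    (hS : S.Exact) : dm j S.X₂ = rkv j S.f + rkv j S.g :=
  finrank_eq_of_exact _ (hS.map ((evaluation WalkingCospan (FGModuleCat.{0} k)).obj j))

lemma dm_eq_of_iso (j : WalkingCospan) {M N : Rep3 (FGModuleCat.{0} k)} (e : M ≅ N) :
    dm j M = dm j N :=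
  (FGModuleCat.isoToLinearEquiv (e.app j)).finrank_eq

lemma dm_eq_zero_of_isZero (j : WalkingCospan) {M : Rep3 (FGModuleCat.{0} k)} (h : IsZero M) :
    dm j M = 0 := by
  have h1 := (Functor.isZero_iff M).1 h j
  have : Subsingleton (M.obj j) := by
    have h2 := (forget₂ (FGModuleCat.{0} k) (ModuleCat.{0} k)).map_isZero h1
    exact ModuleCat.subsingleton_of_isZero h2
  exact Module.finrank_zero_of_subsingleton

lemma rkv_le_left (j : WalkingCospan) {M N : Rep3 (FGModuleCat.{0} k)} (f : M ⟶ N) :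
    rkv j f ≤ dm j M :=
  LinearMap.finrank_range_le _

lemma rkv_le_right (j : WalkingCospan) {M N : Rep3 (FGModuleCat.{0} k)} (f : M ⟶ N) :
    rkv j f ≤ dm j N :=
  Submodule.finrank_le _

variable [HasDerivedCategory.{w} (Rep3 (FGModuleCat.{0} k))]

/-- dimension of the homology in degree `i` at the vertex `j` -/
noncomputable def hd (j : WalkingCospan) (X : DerivedCategory (Rep3 (FGModuleCat.{0} k)))
    (i : ℤ) : ℤ :=
  dm j ((homologyFunctor _ i).obj X)

lemma hd_support (j : WalkingCospan) (X : DerivedCategory.Bounded (Rep3 (FGModuleCat.{0} k))) :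
    ∃ s : Finset ℤ, ∀ i, i ∉ s → hd j X.obj i = 0 := by
  obtain ⟨⟨a, ha⟩, ⟨b, hb⟩⟩ := X.property
  refine ⟨Finset.Icc a b, fun i hi => ?_⟩
  rw [Finset.mem_Icc, not_and_or, not_le, not_le] at hi
  unfold hd
  rcases hi with hi | hi
  · rw [dm_eq_zero_of_isZero j (X.obj.isZero_of_isGE a i hi)]; rfl
  · rw [dm_eq_zero_of_isZero j (X.obj.isZero_of_isLE b i hi)]; rfl

/-- Euler characteristic at the vertex `j` -/
noncomputable def chi (j : WalkingCospan)
    (X : DerivedCategory.Bounded (Rep3 (FGModuleCat.{0} k))) : ℤ :=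
  ∑ᶠ i : ℤ, (i.negOnePow : ℤ) * hd j X.obj i

lemma finite_support_of {f : ℤ → ℤ} {s : Finset ℤ} (h : ∀ i, i ∉ s → f i = 0) :
    (Function.support f).Finite :=
  s.finite_toSet.subset fun i hi => by
    by_contra hc
    exact hi (h i (by simpa using hc))

lemma chi_additive (j : WalkingCospan)
    (T : Triangle (DerivedCategory.Bounded (Rep3 (FGModuleCat.{0} k))))
    (hT : T ∈ distTriang _) : chi j T.obj₂ = chi j T.obj₁ + chi j T.obj₃ := by
  let T' : Triangle (DerivedCategory (Rep3 (FGModuleCat.{0} k))) :=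
    DerivedCategory.Bounded.ι.mapTriangle.obj T
  have hT' : T' ∈ distTriang _ := hT
  let a : ℤ → ℤ := fun i => rkv j ((homologyFunctor _ i).map T'.mor₁)
  let b : ℤ → ℤ := fun i => rkv j ((homologyFunctor _ i).map T'.mor₂)
  let c : ℤ → ℤ := fun i => rkv j (HomologySequence.δ T' i (i + 1) rfl)
  have hx : ∀ i, hd j T.obj₁.obj (i + 1) = c i + a (i + 1) := by
    intro i
    have := dm_eq_of_exact j _ (HomologySequence.exact₁ T' hT' i (i + 1) rfl)
    exact (congrArg (Nat.cast : ℕ → ℤ) this).trans (Nat.cast_add _ _)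
  have hy : ∀ i, hd j T.obj₂.obj i = a i + b i := by
    intro i
    have := dm_eq_of_exact j _ (HomologySequence.exact₂ T' hT' i)
    exact (congrArg (Nat.cast : ℕ → ℤ) this).trans (Nat.cast_add _ _)
  have hz : ∀ i, hd j T.obj₃.obj i = b i + c i := by
    intro i
    have := dm_eq_of_exact j _ (HomologySequence.exact₃ T' hT' i (i + 1) rfl)
    exact (congrArg (Nat.cast : ℕ → ℤ) this).trans (Nat.cast_add _ _)
  obtain ⟨s₁, hs₁⟩ := hd_support j T.obj₁
  obtain ⟨s₂, hs₂⟩ := hd_support j T.obj₂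
  obtain ⟨s₃, hs₃⟩ := hd_support j T.obj₃
  have ha0 : ∀ i, 0 ≤ a i := fun i => Int.natCast_nonneg _
  have hb0 : ∀ i, 0 ≤ b i := fun i => Int.natCast_nonneg _
  have hc0 : ∀ i, 0 ≤ c i := fun i => Int.natCast_nonneg _
  have ha : ∀ i, i ∉ s₂ → a i = 0 := fun i hi => by
    have := hy i; rw [hs₂ i hi] at this; have := ha0 i; have := hb0 i; omega
  have hb : ∀ i, i ∉ s₂ → b i = 0 := fun i hi => by
    have := hy i; rw [hs₂ i hi] at this; have := ha0 i; have := hb0 i; omega
  have hc : ∀ i, i ∉ s₃ → c i = 0 := fun i hi => by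
    have := hz i; rw [hs₃ i hi] at this; have := hc0 i; have := hb0 i; omega
  have e1 : ∀ i : ℤ, ((i + 1).negOnePow : ℤ) = - (i.negOnePow : ℤ) := fun i => by
    rw [Int.negOnePow_succ]; simp
  have fa : (Function.support fun i : ℤ => (i.negOnePow : ℤ) * a i).Finite :=
    finite_support_of (s := s₂) fun i hi => by rw [ha i hi, mul_zero]
  have fb : (Function.support fun i : ℤ => (i.negOnePow : ℤ) * b i).Finite :=
    finite_support_of (s := s₂) fun i hi => by rw [hb i hi, mul_zero]
  have fc : (Function.support fun i : ℤ => (i.negOnePow : ℤ) * c i).Finite :=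
    finite_support_of (s := s₃) fun i hi => by rw [hc i hi, mul_zero]
  have hchi₂ : chi j T.obj₂ = (∑ᶠ i : ℤ, (i.negOnePow : ℤ) * a i) +
      ∑ᶠ i : ℤ, (i.negOnePow : ℤ) * b i := by
    rw [← finsum_add_distrib fa fb]
    exact finsum_congr fun i => by rw [hy i]; ring
  have hchi₃ : chi j T.obj₃ = (∑ᶠ i : ℤ, (i.negOnePow : ℤ) * b i) +
      ∑ᶠ i : ℤ, (i.negOnePow : ℤ) * c i := by
    rw [← finsum_add_distrib fb fc]
    exact finsum_congr fun i => by rw [hz i]; ring
  have hchi₁ : chi j T.obj₁ = (∑ᶠ i : ℤ, (i.negOnePow : ℤ) * a i) -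
      ∑ᶠ i : ℤ, (i.negOnePow : ℤ) * c i := by
    have h1 : chi j T.obj₁ =
        ∑ᶠ i : ℤ, ((i + 1).negOnePow : ℤ) * hd j T.obj₁.obj (i + 1) :=
      (finsum_comp_equiv (Equiv.addRight (1 : ℤ))
        (f := fun i : ℤ => (i.negOnePow : ℤ) * hd j T.obj₁.obj i)).symm
    have h2 : ∑ᶠ i : ℤ, (i.negOnePow : ℤ) * a i =
        ∑ᶠ i : ℤ, ((i + 1).negOnePow : ℤ) * a (i + 1) :=
      (finsum_comp_equiv (Equiv.addRight (1 : ℤ))
        (f := fun i : ℤ => (i.negOnePow : ℤ) * a i)).symm
    have fa' : (Function.support fun i : ℤ => ((i + 1).negOnePow : ℤ) * a (i + 1)).Finite :=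
      fa.preimage ((Equiv.addRight (1 : ℤ)).injective.injOn)
    rw [h1, h2, ← finsum_sub_distrib fa' fc]
    exact finsum_congr fun i => by rw [hx i, e1 i]; ring
  rw [hchi₁, hchi₂, hchi₃]
  ring

/-- The homomorphism `K(D^b) → ℤ³` given by the Euler characteristics at the three vertices. -/
noncomputable def vRep : K0 (DerivedCategory.Bounded (Rep3 (FGModuleCat.{0} k))) →+ (Fin 3 → ℤ) :=
  QuotientAddGroup.lift _
    (FreeAbelianGroup.lift fun X => ![chi .left X, chi .one X, chi .right X]) (by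
      rw [AddSubgroup.closure_le]
      rintro _ ⟨T, hT, rfl⟩
      simp only [SetLike.mem_coe, AddMonoidHom.mem_ker, map_sub, FreeAbelianGroup.lift_apply_of]
      rw [chi_additive .left T hT, chi_additive .one T hT, chi_additive .right T hT]
      ext i
      fin_cases i <;> simp)

lemma vRep_cls (X : DerivedCategory.Bounded (Rep3 (FGModuleCat.{0} k))) :
    vRep (K0.cls X) = ![chi .left X, chi .one X, chi .right X] := by
  simp [vRep, K0.cls]

end Pool.Agent.H83.LaxStab
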