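import Pool.Agent.H83.LaxStab.Defs

/-!
# Transport of composition series along equivalences
-/

open CategoryTheory CategoryTheory.Limits

set_option backward.defeqAttrib.useBackward true

namespace Pool.Agent.H83.LaxStab

universe v u v' u'

section Transport

variable {E : Type u} [Category.{v} E] [HasZeroMorphisms E]
  {E' : Type u'} [Category.{v'} E'] [HasZeroMorphisms E']

lemma IsStrictMono.mono {X Y : E} {i : X ⟶ Y} (h : IsStrictMono i) : Mono i := by
  obtain ⟨h⟩ := h
  exact Fork.IsLimit.mono h.isLimit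

lemma IsStrictMono.iso_comp {X Y W : E} {i : X ⟶ Y} (h : IsStrictMono i) (e : W ≅ X) :
    IsStrictMono (e.hom ≫ i) := by
  obtain ⟨h⟩ := h
  refine ⟨⟨h.Z, h.g, by rw [Category.assoc, h.w, comp_zero], ?_⟩⟩
  exact IsKernel.isoKernel h.g (e.hom ≫ i) h.isLimit e rfl

variable (G : E ⥤ E') [G.IsEquivalence]

lemma IsStrictMono.map {X Y : E} {i : X ⟶ Y} (h : IsStrictMono i) :
    IsStrictMono (G.map i) := by
  obtain ⟨h⟩ := h
  exact ⟨⟨G.obj h.Z, G.map h.g, by rw [← G.map_comp, h.w, G.map_zero],
    isLimitForkMapOfIsLimit' G h.w h.isLimit⟩⟩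

lemma isStrictMono_of_map {X Y : E} {i : X ⟶ Y} (h : IsStrictMono (G.map i)) :
    IsStrictMono i := by
  have hmono : Mono (G.map i) := h.mono
  have hi : Mono i := G.mono_of_mono_map hmono
  obtain ⟨h⟩ := h
  have hw : i ≫ G.preimage (h.g ≫ (G.objObjPreimageIso h.Z).inv) = 0 := by
    apply G.map_injective
    rw [G.map_comp, G.map_preimage, ← Category.assoc, h.w, zero_comp, G.map_zero]
  refine ⟨⟨G.objPreimage h.Z, G.preimage (h.g ≫ (G.objObjPreimageIso h.Z).inv), hw, ?_⟩⟩
  refine KernelFork.IsLimit.ofι' i hw fun {W} k hk => ?_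
  have hk' : G.map k ≫ h.g = 0 := by
    have := congrArg G.map hk
    rw [G.map_comp, G.map_preimage, G.map_zero, ← Category.assoc] at this
    rw [← cancel_mono (G.objObjPreimageIso h.Z).inv, this, zero_comp]
  let l := KernelFork.IsLimit.lift' h.isLimit (G.map k) hk'
  refine ⟨G.preimage l.1, ?_⟩
  apply G.map_injective
  rw [G.map_comp, G.map_preimage]
  exact l.2

lemma isZero_of_map {X : E} (h : IsZero (G.obj X)) : IsZero X := by
  rw [IsZero.iff_id_eq_zero] at h ⊢
  apply G.map_injective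
  rw [G.map_id, G.map_zero]
  exact h

lemma IsSimpleObject.map {S : E} (h : IsSimpleObject S) : IsSimpleObject (G.obj S) where
  not_isZero h0 := h.not_isZero (isZero_of_map G h0)
  isZero_or_isIso X i hi := by
    let e := G.objObjPreimageIso X
    let i' : G.objPreimage X ⟶ S := G.preimage (e.hom ≫ i)
    have hi' : G.map i' = e.hom ≫ i := G.map_preimage _
    have h1 : IsStrictMono i' := isStrictMono_of_map G (by rw [hi']; exact hi.iso_comp e)
    rcases h.isZero_or_isIso i' h1 with h2 | h2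
    · left
      exact (G.map_isZero h2).of_iso e.symm
    · right
      have h3 : IsIso (e.hom ≫ i) := by rw [← hi']; infer_instance
      exact IsIso.of_isIso_comp_left e.hom i

/-- transport of a composition series along an equivalence -/
def StrictCompositionSeries.map {c : E} (s : StrictCompositionSeries c) :
    StrictCompositionSeries (G.obj c) where
  length := s.length
  obj i := G.obj (s.obj i)
  incl i := G.map (s.incl i)
  incl_strict i := (s.incl_strict i).map G
  isZero_bot := G.map_isZero s.isZero_bot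
  isIso_top := by
    have := s.isIso_top
    infer_instance
  step i := G.map (s.step i)
  step_incl i := by rw [← G.map_comp, s.step_incl]
  factor i := G.obj (s.factor i)
  proj i := G.map (s.proj i)
  step_proj i := by rw [← G.map_comp, s.step_proj, G.map_zero]
  isCokernel i := ⟨isColimitCoforkMapOfIsColimit' G (s.step_proj i) (s.isCokernel i).some⟩
  simple i := (s.simple i).map G

include G in
lemma JordanHolderProperty.of_equivalence (h : JordanHolderProperty E') :
    JordanHolderProperty E := by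
  intro c s t
  obtain ⟨e, he⟩ := h (G.obj c) (s.map G) (t.map G)
  refine ⟨e, fun i => ?_⟩
  obtain ⟨f⟩ := he i
  exact ⟨G.preimageIso f⟩

end Transport

section TwoStep

variable {E : Type u} [Category.{v} E] [Preadditive E]

lemma isStrictMono_id (X : E) : IsStrictMono (𝟙 X) :=
  ⟨⟨X, 0, by simp, KernelFork.IsLimit.ofId _ rfl⟩⟩

lemma isStrictMono_of_isZero {Z X : E} (hZ : IsZero Z) (i : Z ⟶ X) : IsStrictMono i := by
  have hi : Mono i := ⟨fun _ _ _ => hZ.eq_of_tgt _ _⟩
  refine ⟨⟨X, 𝟙 X, hZ.eq_of_src _ _, ?_⟩⟩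
  refine KernelFork.IsLimit.ofι' i _ fun {W} k hk => ⟨0, ?_⟩
  rw [zero_comp, ← hk, Category.comp_id]

/-- the composition series of length two attached to a kernel-cokernel pair with simple ends -/
def twoStep {Z S X Q : E} (hZ : IsZero Z) (f : S ⟶ X) (g : X ⟶ Q) (w : f ≫ g = 0)
    (hk : IsLimit (KernelFork.ofι f w)) (hc : IsColimit (CokernelCofork.ofπ g w))
    (hS : IsSimpleObject S) (hQ : IsSimpleObject Q) : StrictCompositionSeries X where
  length := 2
  obj i := match i with
    | ⟨0, _⟩ => Z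
    | ⟨1, _⟩ => S
    | ⟨2, _⟩ => X
  incl i := match i with
    | ⟨0, _⟩ => 0
    | ⟨1, _⟩ => f
    | ⟨2, _⟩ => 𝟙 X
  incl_strict i := match i with
    | ⟨0, _⟩ => isStrictMono_of_isZero hZ _
    | ⟨1, _⟩ => ⟨⟨Q, g, w, hk⟩⟩
    | ⟨2, _⟩ => isStrictMono_id X
  isZero_bot := hZ
  isIso_top := inferInstanceAs (IsIso (𝟙 X))
  step i := match i with
    | ⟨0, _⟩ => (0 : Z ⟶ S)
    | ⟨1, _⟩ => f
  step_incl i := match i with
    | ⟨0, _⟩ => zero_comp
    | ⟨1, _⟩ => Category.comp_id f
  factor i := match i with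
    | ⟨0, _⟩ => S
    | ⟨1, _⟩ => Q
  proj i := match i with
    | ⟨0, _⟩ => 𝟙 S
    | ⟨1, _⟩ => g
  step_proj i := match i with
    | ⟨0, _⟩ => zero_comp
    | ⟨1, _⟩ => w
  isCokernel i := match i with
    | ⟨0, _⟩ => ⟨CokernelCofork.IsColimit.ofId _ rfl⟩
    | ⟨1, _⟩ => ⟨hc⟩
  simple i := match i with
    | ⟨0, _⟩ => hS
    | ⟨1, _⟩ => hQ

end TwoStep

end Pool.Agent.H83.LaxStab
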