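import Pool.Agent.H83.LaxStab.Rep
import Pool.Agent.H83.LaxStab.JH

/-!
# The category of objects with two subobjects does not have the Jordan-Hölder property
-/

open CategoryTheory CategoryTheory.Limits
open scoped ZeroObject

set_option backward.defeqAttrib.useBackward true

namespace Pool.Agent.H83.LaxStab

universe v u

section Full

variable {A : Type u} [Category.{v} A] [Abelian A] (P : ObjectProperty A)

/-- kernels in full subcategories -/
noncomputable def kernelOfShortExact {S X Q : P.FullSubcategory} (f : S ⟶ X) (g : X ⟶ Q)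
    (w : f.hom ≫ g.hom = 0) (h : (ShortComplex.mk f.hom g.hom w).ShortExact) (w' : f ≫ g = 0) :
    IsLimit (KernelFork.ofι f w') :=
  have : Mono f.hom := h.mono_f
  have hf : Mono f := P.ι.mono_of_mono_map this
  KernelFork.IsLimit.ofι' f w' fun {W} k hk =>
    have hk' : k.hom ≫ g.hom = 0 := congrArg (fun x => x.hom) hk
    ⟨P.homMk (h.exact.lift k.hom hk'), by ext; exact h.exact.lift_f k.hom hk'⟩

/-- cokernels in full subcategories -/
noncomputable def cokernelOfShortExact {S X Q : P.FullSubcategory} (f : S ⟶ X) (g : X ⟶ Q)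
    (w : f.hom ≫ g.hom = 0) (h : (ShortComplex.mk f.hom g.hom w).ShortExact) (w' : f ≫ g = 0) :
    IsColimit (CokernelCofork.ofπ g w') :=
  have : Epi g.hom := h.epi_g
  have hg : Epi g := P.ι.epi_of_epi_map this
  CokernelCofork.IsColimit.ofπ' g w' fun {W} k hk =>
    have hk' : f.hom ≫ k.hom = 0 := congrArg (fun x => x.hom) hk
    ⟨P.homMk (h.exact.desc k.hom hk'), by ext; exact h.exact.g_desc k.hom hk'⟩

end Full

section Example

open WalkingCospan

variable {B : Type u} [Category.{v} B] [Abelian B]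

/-- the category of objects with two subobjects -/
abbrev TF (B : Type u) [Category.{v} B] [Abelian B] := (torsionFree (B := B)).FullSubcategory

lemma isSimple_of_simple_one (M : TF B) (hM : Simple (M.obj.obj one)) : IsSimpleObject M where
  not_isZero h := by
    have h1 : IsZero M.obj := (torsionFree (B := B)).ι.map_isZero h
    have h2 := (Functor.isZero_iff _).1 h1 one
    exact Simple.not_isZero _ h2
  isZero_or_isIso X i hi := by
    have hmono : Mono i := hi.mono
    obtain ⟨⟨Z, g, w, hk⟩⟩ := hi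
    have hZ1 := Z.property.1
    have hZ2 := Z.property.2
    have hM1 := M.property.1
    have hM2 := M.property.2
    by_cases h0 : g.hom.app one = 0
    · right
      have hg : g = 0 := by
        ext j
        rcases j with _ | _ | _
        · exact h0
        · change g.hom.app left = 0
          rw [← cancel_mono (Z.obj.map Hom.inl), ← NatTrans.naturality, h0]
          simp
        · change g.hom.app right = 0
          rw [← cancel_mono (Z.obj.map Hom.inr), ← NatTrans.naturality, h0]
          simp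
      let l := KernelFork.IsLimit.lift' hk (𝟙 M) (by rw [hg, comp_zero])
      have hl : l.1 ≫ i = 𝟙 M := l.2
      have : IsSplitEpi i := ⟨⟨⟨l.1, hl⟩⟩⟩
      exact isIso_of_mono_of_isSplitEpi i
    · left
      have m0 : Mono (g.hom.app one) := mono_of_nonzero_from_simple h0
      have m1 : Mono (g.hom.app left) := by
        have e : M.obj.map Hom.inl ≫ g.hom.app one = g.hom.app left ≫ Z.obj.map Hom.inl :=
          g.hom.naturality _
        have : Mono (g.hom.app left ≫ Z.obj.map Hom.inl) := by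
          rw [← e]; exact mono_comp _ _
        exact mono_of_mono (g.hom.app left) (Z.obj.map Hom.inl)
      have m2 : Mono (g.hom.app right) := by
        have e : M.obj.map Hom.inr ≫ g.hom.app one = g.hom.app right ≫ Z.obj.map Hom.inr :=
          g.hom.naturality _
        have : Mono (g.hom.app right ≫ Z.obj.map Hom.inr) := by
          rw [← e]; exact mono_comp _ _
        exact mono_of_mono (g.hom.app right) (Z.obj.map Hom.inr)
      have mg : Mono g.hom := by
        have : ∀ j, Mono (g.hom.app j) := by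
          rintro (_ | _ | _)
          · exact m0
          · exact m1
          · exact m2
        exact NatTrans.mono_of_mono_app _
      have mg' : Mono g := (torsionFree (B := B)).ι.mono_of_mono_map mg
      have hi0 : i = 0 := by rw [← cancel_mono g, w, zero_comp]
      rw [IsZero.iff_id_eq_zero, ← cancel_mono i, hi0]
      simp

variable (U : B)

/-- the object `(0 → U ← 0)` -/
noncomputable def S00 : TF B := ⟨cospan (0 : (0 : B) ⟶ U) (0 : (0 : B) ⟶ U),
  ⟨⟨fun _ _ _ => (isZero_zero B).eq_of_tgt _ _⟩, ⟨fun _ _ _ => (isZero_zero B).eq_of_tgt _ _⟩⟩⟩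

/-- the object `(U → U ← 0)` -/
noncomputable def S10 : TF B := ⟨cospan (𝟙 U) (0 : (0 : B) ⟶ U),
  ⟨inferInstanceAs (Mono (𝟙 U)), ⟨fun _ _ _ => (isZero_zero B).eq_of_tgt _ _⟩⟩⟩

/-- the object `(0 → U ← U)` -/
noncomputable def S01 : TF B := ⟨cospan (0 : (0 : B) ⟶ U) (𝟙 U),
  ⟨⟨fun _ _ _ => (isZero_zero B).eq_of_tgt _ _⟩, inferInstanceAs (Mono (𝟙 U))⟩⟩

/-- the object `(U → U ← U)` -/
noncomputable def S11 : TF B := ⟨cospan (𝟙 U) (𝟙 U),
  ⟨inferInstanceAs (Mono (𝟙 U)), inferInstanceAs (Mono (𝟙 U))⟩⟩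

/-- the object `(U → U ⊞ U ← U)` with the two coordinate inclusions -/
noncomputable def SX : TF B := ⟨cospan (biprod.inl : U ⟶ U ⊞ U) (biprod.inr : U ⟶ U ⊞ U),
  ⟨inferInstanceAs (Mono (biprod.inl : U ⟶ U ⊞ U)),
    inferInstanceAs (Mono (biprod.inr : U ⟶ U ⊞ U))⟩⟩

/-- `S10 ⟶ SX` -/
noncomputable def f1 : S10 U ⟶ SX U := (torsionFree (B := B)).homMk
  (homMk (𝟙 U) (biprod.inl : U ⟶ U ⊞ U) (0 : (0 : B) ⟶ U) rfl
    ((isZero_zero B).eq_of_src _ _))

/-- `SX ⟶ S01` -/
noncomputable def g1 : SX U ⟶ S01 U := (torsionFree (B := B)).homMk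
  (homMk (0 : U ⟶ (0 : B)) (biprod.snd : U ⊞ U ⟶ U) (𝟙 U)
    (by change (biprod.inl : U ⟶ U ⊞ U) ≫ biprod.snd = 0 ≫ 0; simp)
    (by change (biprod.inr : U ⟶ U ⊞ U) ≫ biprod.snd = 𝟙 U ≫ 𝟙 U; simp))

/-- `S00 ⟶ SX`, the diagonal -/
noncomputable def f2 : S00 U ⟶ SX U := (torsionFree (B := B)).homMk
  (homMk (0 : (0 : B) ⟶ U) (biprod.lift (𝟙 U) (𝟙 U)) (0 : (0 : B) ⟶ U)
    ((isZero_zero B).eq_of_src _ _) ((isZero_zero B).eq_of_src _ _))

/-- `SX ⟶ S11`, the difference -/
noncomputable def g2 : SX U ⟶ S11 U := (torsionFree (B := B)).homMk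
  (homMk (𝟙 U) (biprod.desc (𝟙 U) (-𝟙 U)) (-𝟙 U)
    (by change (biprod.inl : U ⟶ U ⊞ U) ≫ biprod.desc (𝟙 U) (-𝟙 U) = 𝟙 U ≫ 𝟙 U; simp)
    (by change (biprod.inr : U ⟶ U ⊞ U) ≫ biprod.desc (𝟙 U) (-𝟙 U) = (-𝟙 U) ≫ 𝟙 U; simp))

lemma w1 : (f1 U).hom ≫ (g1 U).hom = 0 := by
  ext j
  rcases j with _ | _ | _
  · change (biprod.inl : U ⟶ U ⊞ U) ≫ biprod.snd = 0; simp
  · change 𝟙 U ≫ (0 : U ⟶ (0 : B)) = 0; simp
  · change (0 : (0 : B) ⟶ U) ≫ 𝟙 U = 0; simp

lemma w2 : (f2 U).hom ≫ (g2 U).hom = 0 := by
  ext j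
  rcases j with _ | _ | _
  · change biprod.lift (𝟙 U) (𝟙 U) ≫ biprod.desc (𝟙 U) (-𝟙 U) = 0; simp
  · change (0 : (0 : B) ⟶ U) ≫ 𝟙 U = 0; simp
  · change (0 : (0 : B) ⟶ U) ≫ (-𝟙 U) = 0; simp

lemma se1 : (ShortComplex.mk (f1 U).hom (g1 U).hom (w1 U)).ShortExact := by
  apply shortExact_of_app
  intro j
  rcases j with _ | _ | _
  · let S : ShortComplex B := ShortComplex.mk (biprod.inl : U ⟶ U ⊞ U)
      (biprod.snd : U ⊞ U ⟶ U) (by simp)
    have sp : S.Splitting :=
      { r := biprod.fst
        s := biprod.inr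
        f_r := by simp [S]
        s_g := by simp [S]
        id := by simp [S] }
    exact sp.shortExact
  · let S : ShortComplex B := ShortComplex.mk (𝟙 U) (0 : U ⟶ (0 : B)) (by simp)
    have sp : S.Splitting :=
      { r := 𝟙 U
        s := 0
        f_r := by simp [S]
        s_g := (isZero_zero B).eq_of_src _ _
        id := by simp [S] }
    exact sp.shortExact
  · let S : ShortComplex B := ShortComplex.mk (0 : (0 : B) ⟶ U) (𝟙 U) (by simp)
    have sp : S.Splitting :=
      { r := 0
        s := 𝟙 U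
        f_r := (isZero_zero B).eq_of_src _ _
        s_g := by simp [S]
        id := by simp [S] }
    exact sp.shortExact

lemma se2 : (ShortComplex.mk (f2 U).hom (g2 U).hom (w2 U)).ShortExact := by
  apply shortExact_of_app
  intro j
  rcases j with _ | _ | _
  · let S : ShortComplex B := ShortComplex.mk (biprod.lift (𝟙 U) (𝟙 U))
      (biprod.desc (𝟙 U) (-𝟙 U)) (by simp)
    have sp : S.Splitting :=
      { r := biprod.snd
        s := biprod.inl
        f_r := by simp [S]
        s_g := by simp [S]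
        id := by
          dsimp [S]
          ext <;> simp }
    exact sp.shortExact
  · let S : ShortComplex B := ShortComplex.mk (0 : (0 : B) ⟶ U) (𝟙 U) (by simp)
    have sp : S.Splitting :=
      { r := 0
        s := 𝟙 U
        f_r := (isZero_zero B).eq_of_src _ _
        s_g := by simp [S]
        id := by simp [S] }
    exact sp.shortExact
  · let S : ShortComplex B := ShortComplex.mk (0 : (0 : B) ⟶ U) (-𝟙 U) (by simp)
    have sp : S.Splitting :=
      { r := 0
        s := -𝟙 U
        f_r := (isZero_zero B).eq_of_src _ _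
        s_g := by simp [S]
        id := by simp [S] }
    exact sp.shortExact

lemma w1' : f1 U ≫ g1 U = 0 := by
  apply (torsionFree (B := B)).ι.map_injective
  exact w1 U

lemma w2' : f2 U ≫ g2 U = 0 := by
  apply (torsionFree (B := B)).ι.map_injective
  exact w2 U

/-- The category of objects with two subobjects fails the Jordan-Hölder property. -/
theorem not_jordanHolder_TF (U : B) [hU : Simple U] : ¬ JordanHolderProperty (TF B) := by
  intro h
  let Z0 : TF B := ⟨(0 : Rep3 B), repTorsionPair.F_zero _ (isZero_zero _)⟩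
  have hz : IsZero Z0 := by
    rw [IsZero.iff_id_eq_zero]
    apply (torsionFree (B := B)).ι.map_injective
    exact (isZero_zero (Rep3 B)).eq_of_src _ _
  let s : StrictCompositionSeries (SX U) := twoStep hz (f1 U) (g1 U) (w1' U)
    (kernelOfShortExact _ _ _ _ (se1 U) _) (cokernelOfShortExact _ _ _ _ (se1 U) _)
    (isSimple_of_simple_one _ hU) (isSimple_of_simple_one _ hU)
  let t : StrictCompositionSeries (SX U) := twoStep hz (f2 U) (g2 U) (w2' U)
    (kernelOfShortExact _ _ _ _ (se2 U) _) (cokernelOfShortExact _ _ _ _ (se2 U) _)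
    (isSimple_of_simple_one _ hU) (isSimple_of_simple_one _ hU)
  obtain ⟨e, he⟩ := h _ s t
  have hne : ¬ IsZero U := Simple.not_isZero U
  have key : ∀ j : Fin 2, Nonempty (S10 U ≅ t.factor j) → False := by
    intro j
    match j with
    | ⟨0, _⟩ =>
      rintro ⟨i⟩
      have i' : S10 U ≅ S00 U := i
      exact hne ((isZero_zero B).of_iso
        (((torsionFree (B := B)).ι.mapIso i').app left))
    | ⟨1, _⟩ =>
      rintro ⟨i⟩
      have i' : S10 U ≅ S11 U := i
      exact hne ((isZero_zero B).of_iso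
        (((torsionFree (B := B)).ι.mapIso i').app right).symm)
  exact key (e ⟨0, Nat.zero_lt_two⟩) (he ⟨0, Nat.zero_lt_two⟩)

end Example

end Pool.Agent.H83.LaxStab
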