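import Pool.Agent.H83.LaxStab.Defs

/-!
# Towers of triangles: concatenation of Harder-Narasimhan type filtrations
-/

open CategoryTheory CategoryTheory.Limits CategoryTheory.Pretriangulated
open scoped ZeroObject

set_option backward.defeqAttrib.useBackward true

namespace Pool.Agent.H83.LaxStab

universe v u

variable {C : Type u} [Category.{v} C] [Preadditive C] [HasZeroObject C] [HasShift C ℤ]
  [∀ n : ℤ, (shiftFunctor C n).Additive] [Pretriangulated C]

/-- `Filt P L E`: the object `E` has a tower with semistable cones of phases `L` (the head of the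
list being the last, i.e. the smallest phase). -/
inductive Filt (P : ℝ → ObjectProperty C) : List ℝ → C → Prop
  | nil (E : C) (h : IsZero E) : Filt P [] E
  | cons (φ : ℝ) (L : List ℝ) (E' E A : C) (f : E' ⟶ E) (g : E ⟶ A) (h : A ⟶ E'⟦(1 : ℤ)⟧)
      (hT : Triangle.mk f g h ∈ distTriang C) (hA : P φ A) (hA' : ¬ IsZero A)
      (hL : ∀ ψ ∈ L, φ < ψ) (hE' : Filt P L E') : Filt P (φ :: L) E

variable {P : ℝ → ObjectProperty C}

lemma Filt.of_iso {L : List ℝ} {E F : C} (h : Filt P L E) (e : E ≅ F) : Filt P L F := by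
  cases h with
  | nil _ h => exact Filt.nil F (h.of_iso e.symm)
  | cons φ L E' _ A f g h hT hA hA' hL hE' =>
    refine Filt.cons φ L E' F A (f ≫ e.hom) (e.inv ≫ g) h ?_ hA hA' hL hE'
    exact isomorphic_distinguished _ hT _
      (Triangle.isoMk _ _ (Iso.refl _) e.symm (Iso.refl _) (by dsimp; simp) (by dsimp; simp)
        (by dsimp; simp))

/-- Tower of length one or zero with a semistable object. -/
lemma Filt.single {φ : ℝ} {A : C} (hA : P φ A) :
    ∃ L : List ℝ, (∀ ψ ∈ L, ψ = φ) ∧ Filt P L A := by
  by_cases h0 : IsZero A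
  · exact ⟨[], by simp, Filt.nil A h0⟩
  · refine ⟨[φ], by simp, Filt.cons φ [] (0 : C) A A 0 (𝟙 A) 0 ?_ hA h0 (by simp)
      (Filt.nil _ (isZero_zero C))⟩
    exact contractible_distinguished₁ A

lemma Filt.concat [IsTriangulated C] {L' L'' : List ℝ} {X' X X'' : C} (h' : Filt P L' X')
    (h'' : Filt P L'' X'') (hL : ∀ φ ∈ L'', ∀ ψ ∈ L', φ < ψ)
    (f : X' ⟶ X) (g : X ⟶ X'') (h : X'' ⟶ X'⟦(1 : ℤ)⟧) (hT : Triangle.mk f g h ∈ distTriang C) :
    Filt P (L'' ++ L') X := by
  induction h'' generalizing X with
  | nil E hE =>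
    have : IsIso f := (Triangle.isZero₃_iff_isIso₁ _ hT).1 hE
    simpa using h'.of_iso (asIso f)
  | cons φ L W E A a b c hT' hA hA' hL' hE' ih =>
    obtain ⟨Y, i, δ, hY⟩ := distinguished_cocone_triangle₁ (g ≫ b)
    let o := Triangulated.someOctahedron' (rfl : g ≫ b = g ≫ b) hT hT' hY
    have hmem := o.mem
    have key := ih (fun ψ hψ χ hχ => hL ψ (by simp [hψ]) χ hχ) _ _ _ hmem
    refine Filt.cons φ (L ++ L') Y X A i (g ≫ b) δ hY hA hA' ?_ key
    intro ψ hψ
    rcases List.mem_append.1 hψ with h1 | h1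
    · exact hL' ψ h1
    · exact hL φ (by simp) ψ h1

lemma Filt.exists_tower {L : List ℝ} {E : C} (h : Filt P L E) :
    ∃ (n : ℕ) (phase : Fin n → ℝ) (obj : Fin (n + 1) → C)
    (A : Fin n → C), (∀ i j, i < j → phase j < phase i) ∧ (∀ i, phase i ∈ L) ∧ IsZero (obj 0) ∧
      obj (Fin.last n) = E ∧
      ∀ i : Fin n, P (phase i) (A i) ∧ ¬ IsZero (A i) ∧
        ∃ (f : obj i.castSucc ⟶ obj i.succ) (g : obj i.succ ⟶ A i)
          (h : A i ⟶ (obj i.castSucc)⟦(1 : ℤ)⟧), Triangle.mk f g h ∈ distTriang C := by
  induction h with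
  | nil E h =>
    exact ⟨0, Fin.elim0, fun _ => E, Fin.elim0, fun i => i.elim0, fun i => i.elim0, h, rfl,
      fun i => i.elim0⟩
  | cons φ L W E A a b c hT hA hA' hL hE' ih =>
    obtain ⟨n, phase, obj, B, h1, h2, h3, h4, h5⟩ := ih
    refine ⟨n + 1, Fin.snoc phase φ, Fin.snoc obj E, Fin.snoc B A, ?_, ?_, ?_, ?_, ?_⟩
    · intro i j hij
      induction j using Fin.lastCases with
      | last =>
        induction i using Fin.lastCases with
        | last => exact absurd hij (lt_irrefl _)
        | cast i =>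
          rw [Fin.snoc_last, Fin.snoc_castSucc]
          exact hL _ (h2 i)
      | cast j =>
        induction i using Fin.lastCases with
        | last =>
          exfalso
          have := Fin.le_last (Fin.castSucc j)
          exact absurd hij (not_lt.2 this)
        | cast i =>
          rw [Fin.snoc_castSucc, Fin.snoc_castSucc]
          exact h1 i j (by simpa using hij)
    · intro i
      induction i using Fin.lastCases with
      | last => simp
      | cast i => simp [h2 i]
    · have : (0 : Fin (n + 1 + 1)) = Fin.castSucc (0 : Fin (n + 1)) := rfl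
      rw [this, Fin.snoc_castSucc]
      exact h3
    · simp
    · intro i
      induction i using Fin.lastCases with
      | last =>
        have e1 : (Fin.snoc obj E : Fin (n + 1 + 1) → C) (Fin.last n).castSucc = W := by
          rw [Fin.snoc_castSucc, h4]
        have e2 : (Fin.snoc obj E : Fin (n + 1 + 1) → C) (Fin.last n).succ = E := by
          rw [Fin.succ_last, Fin.snoc_last]
        have e3 : (Fin.snoc B A : Fin (n + 1) → C) (Fin.last n) = A := by simp
        have e4 : (Fin.snoc phase φ : Fin (n + 1) → ℝ) (Fin.last n) = φ := by simp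
        rw [e3, e4]
        refine ⟨hA, hA', ?_⟩
        generalize (Fin.snoc obj E : Fin (n + 1 + 1) → C) (Fin.last n).castSucc = W' at *
        generalize (Fin.snoc obj E : Fin (n + 1 + 1) → C) (Fin.last n).succ = E' at *
        subst e1 e2
        exact ⟨a, b, c, hT⟩
      | cast i =>
        have e1 : (Fin.snoc obj E : Fin (n + 1 + 1) → C) i.castSucc.castSucc = obj i.castSucc := by
          rw [Fin.snoc_castSucc]
        have e2 : (Fin.snoc obj E : Fin (n + 1 + 1) → C) i.castSucc.succ = obj i.succ := by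
          rw [Fin.succ_castSucc, Fin.snoc_castSucc]
        have e3 : (Fin.snoc B A : Fin (n + 1) → C) i.castSucc = B i := by
          rw [Fin.snoc_castSucc]
        have e4 : (Fin.snoc phase φ : Fin (n + 1) → ℝ) i.castSucc = phase i := by
          rw [Fin.snoc_castSucc]
        rw [e3, e4]
        obtain ⟨k1, k2, k3⟩ := h5 i
        refine ⟨k1, k2, ?_⟩
        generalize (Fin.snoc obj E : Fin (n + 1 + 1) → C) i.castSucc.castSucc = W' at *
        generalize (Fin.snoc obj E : Fin (n + 1 + 1) → C) i.castSucc.succ = E' at *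
        subst e1 e2
        exact k3

end Pool.Agent.H83.LaxStab
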