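import Pool.Agent.H83.LaxStab.TorsionSlicing

/-!
# Representations of the quiver `1 → 2 ← 3` and a torsion pair
-/

open CategoryTheory CategoryTheory.Limits CategoryTheory.Pretriangulated DerivedCategory
open scoped ZeroObject

set_option backward.defeqAttrib.useBackward true

namespace Pool.Agent.H83.LaxStab

universe w v u

section General

variable {J : Type} [SmallCategory J] {B : Type u} [Category.{v} B] [Abelian B]

lemma exact_of_app (S : ShortComplex (J ⥤ B))
    (h : ∀ j, (S.map ((evaluation J B).obj j)).Exact) : S.Exact := by
  rw [ShortComplex.exact_iff_isZero_homology, Functor.isZero_iff]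
  intro j
  have h1 := (ShortComplex.exact_iff_isZero_homology _).1 (h j)
  exact h1.of_iso (S.mapHomologyIso ((evaluation J B).obj j)).symm

lemma shortExact_of_app (S : ShortComplex (J ⥤ B))
    (h : ∀ j, (S.map ((evaluation J B).obj j)).ShortExact) : S.ShortExact := by
  have hm : ∀ j, Mono (S.f.app j) := fun j => (h j).mono_f
  have he : ∀ j, Epi (S.g.app j) := fun j => (h j).epi_g
  have : Mono S.f := NatTrans.mono_of_mono_app _
  have : Epi S.g := NatTrans.epi_of_epi_app _
  exact { exact := exact_of_app S fun j => (h j).exact }

end General

variable (B : Type u) [Category.{v} B] [Abelian B]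

/-- Representations of the quiver `1 → 2 ← 3` in an abelian category `B`. -/
abbrev Rep3 := WalkingCospan ⥤ B

variable {B}

open WalkingCospan

/-- natural transformations between representations -/
def homMk {M N : Rep3 B} (a : M.obj left ⟶ N.obj left) (b : M.obj one ⟶ N.obj one)
    (c : M.obj right ⟶ N.obj right) (h1 : M.map Hom.inl ≫ b = a ≫ N.map Hom.inl)
    (h2 : M.map Hom.inr ≫ b = c ≫ N.map Hom.inr) : M ⟶ N where
  app j := match j with
    | left => a
    | one => b
    | right => c
  naturality := by
    rintro _ _ (_ | _ | _)
    · simp
    · exact h1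
    · exact h2

/-- the torsion-free representations: both maps are monomorphisms -/
def torsionFree : ObjectProperty (Rep3 B) := fun M => Mono (M.map Hom.inl) ∧ Mono (M.map Hom.inr)

/-- the torsion representations: nothing at the middle vertex -/
def torsion : ObjectProperty (Rep3 B) := fun M => IsZero (M.obj one)

/-- the torsion pair -/
def repTorsionPair : TorsionPair (Rep3 B) where
  T := torsion
  F := torsionFree
  T_iso := ⟨fun e h => IsZero.of_iso h (e.symm.app one)⟩
  F_iso := ⟨fun {X Y} e h => by
    have h1 := h.1
    have h2 := h.2
    have e1 : Y.map Hom.inl = e.inv.app left ≫ X.map Hom.inl ≫ e.hom.app one := by simp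
    have e2 : Y.map Hom.inr = e.inv.app right ≫ X.map Hom.inr ≫ e.hom.app one := by simp
    constructor
    · rw [e1]; infer_instance
    · rw [e2]; infer_instance⟩
  T_zero X hX := (Functor.isZero_iff X).1 hX one
  F_zero X hX := by
    have h1 := (Functor.isZero_iff X).1 hX left
    have h2 := (Functor.isZero_iff X).1 hX right
    exact ⟨⟨fun _ _ _ => h1.eq_of_tgt _ _⟩, ⟨fun _ _ _ => h2.eq_of_tgt _ _⟩⟩
  T_biprod X Y b hb hX hY := by
    obtain ⟨hb⟩ := hb
    have := IsBilimit.binary_total hb
    have h := congr_app this one
    change IsZero (b.pt.obj one)
    rw [IsZero.iff_id_eq_zero]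
    rw [NatTrans.id_app] at h
    rw [← h]
    simp only [NatTrans.app_add, NatTrans.comp_app]
    rw [IsZero.eq_of_tgt hX (b.fst.app one) 0, IsZero.eq_of_tgt hY (b.snd.app one) 0]
    simp
  F_biprod X Y b hb hX hY := by
    obtain ⟨hb⟩ := hb
    have htot := IsBilimit.binary_total hb
    have hX1 := hX.1
    have hX2 := hX.2
    have hY1 := hY.1
    have hY2 := hY.2
    constructor
    · apply Preadditive.mono_of_cancel_zero
      intro W u hu
      have h := congr_app htot left
      have k1 : u ≫ b.fst.app left = 0 := by
        rw [← cancel_mono (X.map Hom.inl), Category.assoc, ← NatTrans.naturality,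
          ← Category.assoc, hu]
        simp
      have k2 : u ≫ b.snd.app left = 0 := by
        rw [← cancel_mono (Y.map Hom.inl), Category.assoc, ← NatTrans.naturality,
          ← Category.assoc, hu]
        simp
      have : u = u ≫ (𝟙 b.pt : b.pt ⟶ b.pt).app left := by simp
      rw [this, ← h]
      simp only [NatTrans.app_add, NatTrans.comp_app, Preadditive.comp_add]
      rw [← Category.assoc, ← Category.assoc, k1, k2]
      simp
    · apply Preadditive.mono_of_cancel_zero
      intro W u hu
      have h := congr_app htot right
      have k1 : u ≫ b.fst.app right = 0 := by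
        rw [← cancel_mono (X.map Hom.inr), Category.assoc, ← NatTrans.naturality,
          ← Category.assoc, hu]
        simp
      have k2 : u ≫ b.snd.app right = 0 := by
        rw [← cancel_mono (Y.map Hom.inr), Category.assoc, ← NatTrans.naturality,
          ← Category.assoc, hu]
        simp
      have : u = u ≫ (𝟙 b.pt : b.pt ⟶ b.pt).app right := by simp
      rw [this, ← h]
      simp only [NatTrans.app_add, NatTrans.comp_app, Preadditive.comp_add]
      rw [← Category.assoc, ← Category.assoc, k1, k2]
      simp
  hom_zero X Y f hX hY := by
    have hY1 := hY.1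
    have hY2 := hY.2
    have h0 : f.app one = 0 := IsZero.eq_of_src hX _ _
    ext j
    rcases j with _ | _ | _
    · exact h0
    · change f.app left = 0
      rw [← cancel_mono (Y.map Hom.inl), ← NatTrans.naturality, h0]
      simp
    · change f.app right = 0
      rw [← cancel_mono (Y.map Hom.inr), ← NatTrans.naturality, h0]
      simp
  exists_ses M := by
    let l := M.map Hom.inl
    let r := M.map Hom.inr
    let X : Rep3 B := cospan (0 : kernel l ⟶ (0 : B)) (0 : kernel r ⟶ (0 : B))
    let Y : Rep3 B := cospan (Abelian.factorThruCoimage l) (Abelian.factorThruCoimage r)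
    let f : X ⟶ M := homMk (kernel.ι l) 0 (kernel.ι r)
      (by dsimp [X, l]; simp) (by dsimp [X, r]; simp)
    let g : M ⟶ Y := homMk (cokernel.π (kernel.ι l)) (𝟙 _) (cokernel.π (kernel.ι r))
      (by dsimp [Y]; simp [l]) (by dsimp [Y]; simp [r])
    have wz : f ≫ g = 0 := by
      ext j
      rcases j with _ | _ | _
      · exact (isZero_zero B).eq_of_src _ _
      · exact cokernel.condition (kernel.ι l)
      · exact cokernel.condition (kernel.ι r)
    refine ⟨X, Y, f, g, wz, ?_, isZero_zero B, ?_⟩
    · apply shortExact_of_app
      intro j
      rcases j with _ | _ | _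
      · have hz : IsZero (X.obj one) := isZero_zero B
        have hm : Mono (f.app one) := ⟨fun _ _ _ => hz.eq_of_tgt _ _⟩
        have he : Epi (g.app one) := by change Epi (𝟙 (M.obj one)); infer_instance
        have hm' : Mono (g.app one) := by change Mono (𝟙 (M.obj one)); infer_instance
        have hf0 : f.app one = 0 := hz.eq_of_src _ _
        exact { exact := (ShortComplex.exact_iff_mono _ hf0).2 hm', mono_f := hm, epi_g := he }
      · have hm : Mono (f.app left) := by change Mono (kernel.ι l); infer_instance
        have he : Epi (g.app left) := by change Epi (cokernel.π (kernel.ι l)); infer_instance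
        exact { exact := ShortComplex.exact_cokernel (kernel.ι l), mono_f := hm, epi_g := he }
      · have hm : Mono (f.app right) := by change Mono (kernel.ι r); infer_instance
        have he : Epi (g.app right) := by change Epi (cokernel.π (kernel.ι r)); infer_instance
        exact { exact := ShortComplex.exact_cokernel (kernel.ι r), mono_f := hm, epi_g := he }
    · constructor
      · change Mono (Abelian.factorThruCoimage l)
        infer_instance
      · change Mono (Abelian.factorThruCoimage r)
        infer_instance

end Pool.Agent.H83.LaxStab
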