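import Pool.Agent.H83.LaxStab.Euler
import Pool.Agent.H83.LaxStab.Fail

/-!
# The lax stability condition on the bounded derived category of `1 → 2 ← 3`
-/

open CategoryTheory CategoryTheory.Limits CategoryTheory.Pretriangulated DerivedCategory
open scoped ZeroObject TensorProduct

set_option backward.defeqAttrib.useBackward true

namespace Pool.Agent.H83.LaxStab

universe w v u

open WalkingCospan

/-- the sup norm on `ℝ ⊗ ℤ³` -/
noncomputable def supNorm : LatticeNorm (Fin 3 → ℤ) where
  toSeminorm := (normSeminorm ℝ (Fin 3 → ℝ)).comp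
    (TensorProduct.piScalarRight ℤ ℝ ℝ (Fin 3) : ℝ ⊗[ℤ] (Fin 3 → ℤ) →ₗ[ℝ] (Fin 3 → ℝ))
  definite x hx := by
    have h1 : ‖TensorProduct.piScalarRight ℤ ℝ ℝ (Fin 3) x‖ = 0 := hx
    rw [norm_eq_zero] at h1
    exact (LinearEquiv.map_eq_zero_iff _).1 h1

lemma supNorm_tmul (l : Fin 3 → ℤ) :
    supNorm.toSeminorm ((1 : ℝ) ⊗ₜ[ℤ] l) = ‖fun j => (l j : ℝ)‖ := by
  change ‖TensorProduct.piScalarRight ℤ ℝ ℝ (Fin 3) ((1 : ℝ) ⊗ₜ[ℤ] l)‖ = _
  congr 1
  ext j
  simp

/-- the central charge: `Z(a, b, c) = b i` -/
noncomputable def Zc : (Fin 3 → ℤ) →+ ℂ where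
  toFun l := (l 1 : ℂ) * Complex.I
  map_zero' := by simp
  map_add' a b := by simp [add_mul]

lemma exp_phase (i : ℤ) : Complex.exp (Complex.I * Real.pi * ((1 / 2 - i : ℝ) : ℂ)) =
    ((i.negOnePow : ℤ) : ℂ) * Complex.I := by
  rcases Int.even_or_odd' i with ⟨m, rfl | rfl⟩
  · have h1 : Complex.I * Real.pi * ((1 / 2 - (2 * m : ℤ) : ℝ) : ℂ) =
        (Real.pi / 2 * Complex.I) + ((-m : ℤ) : ℂ) * (2 * Real.pi * Complex.I) := by
      push_cast; ring
    rw [h1, Complex.exp_add, Complex.exp_int_mul_two_pi_mul_I, Complex.exp_pi_div_two_mul_I]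
    rw [Int.negOnePow_even _ (even_two_mul m)]
    simp
  · have h1 : Complex.I * Real.pi * ((1 / 2 - (2 * m + 1 : ℤ) : ℝ) : ℂ) =
        (Real.pi / 2 * Complex.I) + ((-m : ℤ) : ℂ) * (2 * Real.pi * Complex.I)
          - Real.pi * Complex.I := by
      push_cast; ring
    rw [h1, Complex.exp_sub, Complex.exp_add, Complex.exp_int_mul_two_pi_mul_I,
      Complex.exp_pi_div_two_mul_I, Complex.exp_pi_mul_I]
    rw [Int.negOnePow_odd _ (odd_two_mul_add_one m)]
    simp [div_neg]

variable {k : Type} [Field k]

lemma isZero_of_finrank {V : FGModuleCat.{0} k} (h : Module.finrank k V = 0) : IsZero V := by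
  have h1 : Subsingleton V := Module.finrank_zero_iff.1 h
  have h2 : IsZero ((forget₂ (FGModuleCat.{0} k) (ModuleCat.{0} k)).obj V) :=
    @ModuleCat.isZero_of_subsingleton k _ ((forget₂ (FGModuleCat.{0} k) (ModuleCat.{0} k)).obj V) h1
  rw [IsZero.iff_id_eq_zero] at h2 ⊢
  apply (forget₂ (FGModuleCat.{0} k) (ModuleCat.{0} k)).map_injective
  rw [CategoryTheory.Functor.map_id, Functor.map_zero]
  exact h2

lemma finrank_le_of_mono {V W : FGModuleCat.{0} k} (f : V ⟶ W) [Mono f] :
    Module.finrank k V ≤ Module.finrank k W := by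
  have h1 : Mono ((forget₂ (FGModuleCat.{0} k) (ModuleCat.{0} k)).map f) := inferInstance
  have h2 := (ModuleCat.mono_iff_injective _).1 h1
  exact LinearMap.finrank_le_finrank_of_injective (f := f.hom.hom) h2

lemma torsionFree_dm {M : Rep3 (FGModuleCat.{0} k)} (h : torsionFree M) :
    dm left M ≤ dm one M ∧ dm right M ≤ dm one M := by
  have h1 := h.1
  have h2 := h.2
  exact ⟨finrank_le_of_mono (M.map Hom.inl), finrank_le_of_mono (M.map Hom.inr)⟩

lemma isZero_of_torsionFree {M : Rep3 (FGModuleCat.{0} k)} (h : torsionFree M)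
    (h0 : dm one M = 0) : IsZero M := by
  have h1 := torsionFree_dm h
  rw [Functor.isZero_iff]
  rintro (_ | _ | _)
  · exact isZero_of_finrank h0
  · exact isZero_of_finrank (Nat.le_zero.1 (h1.1.trans h0.le))
  · exact isZero_of_finrank (Nat.le_zero.1 (h1.2.trans h0.le))

variable [HasDerivedCategory.{w} (Rep3 (FGModuleCat.{0} k))]

lemma chi_eq {X : DerivedCategory.Bounded (Rep3 (FGModuleCat.{0} k))} {i : ℤ}
    (h : X.obj.IsLE i ∧ X.obj.IsGE i) (j : WalkingCospan) :
    chi j X = (i.negOnePow : ℤ) * hd j X.obj i := by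
  obtain ⟨h1, h2⟩ := h
  unfold chi
  rw [finsum_eq_single _ i]
  intro n hn
  unfold hd
  rcases lt_or_gt_of_ne hn with h | h
  · rw [dm_eq_zero_of_isZero j (X.obj.isZero_of_isGE i n h)]; simp
  · rw [dm_eq_zero_of_isZero j (X.obj.isZero_of_isLE i n h)]; simp

lemma exists_homology {X : DerivedCategory.Bounded (Rep3 (FGModuleCat.{0} k))}
    (h : ¬ IsZero X) : ∃ i : ℤ, ¬ IsZero ((homologyFunctor _ i).obj X.obj) := by
  by_contra hc
  push Not at hc
  exact h ((isZero_obj_iff X).1 (isZero_of_homology hc))

/-- the pre-stability condition -/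
noncomputable def laxPre : LaxPreStabilityCondition
    (vRep : K0 (DerivedCategory.Bounded (Rep3 (FGModuleCat.{0} k))) →+ _) where
  toSlicing := torsionSlicing repTorsionPair
  Z := Zc
  charge φ c hc hc0 := by
    obtain ⟨i, hi⟩ := exists_homology hc0
    have hconc := concentrated repTorsionPair hc hi
    have hchi := chi_eq hconc one
    rw [vRep_cls]
    change ∃ m : ℝ, 0 ≤ m ∧ ((chi one c : ℤ) : ℂ) * Complex.I = _
    rcases hc i hi with ⟨h1, h2⟩ | ⟨h1, h2⟩
    · refine ⟨0, le_rfl, ?_⟩
      have h3 : IsZero (((homologyFunctor _ i).obj c.obj).obj one) := h2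
      have h4 : hd one c.obj i = 0 := by
        unfold hd dm
        have : Subsingleton (((homologyFunctor _ i).obj c.obj).obj one) :=
          ModuleCat.subsingleton_of_isZero
            ((forget₂ (FGModuleCat.{0} k) (ModuleCat.{0} k)).map_isZero h3)
        rw [Module.finrank_zero_of_subsingleton]; rfl
      rw [hchi, h4]
      simp
    · refine ⟨dm one ((homologyFunctor _ i).obj c.obj), by positivity, ?_⟩
      rw [h1, exp_phase, hchi]
      unfold hd
      push_cast
      ring

lemma laxPre_mass (c : DerivedCategory.Bounded (Rep3 (FGModuleCat.{0} k))) :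
    (laxPre (k := k)).mass c = |(chi one c : ℝ)| := by
  unfold LaxPreStabilityCondition.mass
  rw [vRep_cls]
  change ‖((chi one c : ℤ) : ℂ) * Complex.I‖ = _
  rw [norm_mul, Complex.norm_I, mul_one]
  exact Complex.norm_intCast _

lemma abs_chi {X : DerivedCategory.Bounded (Rep3 (FGModuleCat.{0} k))} {i : ℤ}
    (h : X.obj.IsLE i ∧ X.obj.IsGE i) (j : WalkingCospan) :
    |(chi j X : ℝ)| = dm j ((homologyFunctor _ i).obj X.obj) := by
  rw [chi_eq h j]
  unfold hd
  push_cast
  rw [abs_mul, Nat.abs_cast]
  rcases Int.even_or_odd i with hi | hi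
  · rw [Int.negOnePow_even _ hi]; simp
  · rw [Int.negOnePow_odd _ hi]; simp

/-- the lax stability condition -/
noncomputable def lax : LaxStabilityCondition
    (vRep : K0 (DerivedCategory.Bounded (Rep3 (FGModuleCat.{0} k))) →+ _) supNorm where
  toLaxPreStabilityCondition := laxPre
  support := by
    refine ⟨1, one_pos, fun φ s _ hs => ?_⟩
    rw [div_one, laxPre_mass, supNorm_tmul]
    rw [laxPre_mass] at hs
    have hs0 : ¬ IsZero s.obj := by
      intro h0
      have h1 : s.obj.obj.IsLE 0 := ((DerivedCategory.isLE_iff _ _).2 fun i _ =>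
        (homologyFunctor _ i).map_isZero ((isZero_obj_iff _).2 h0))
      have h2 : s.obj.obj.IsGE 0 := ((DerivedCategory.isGE_iff _ _).2 fun i _ =>
        (homologyFunctor _ i).map_isZero ((isZero_obj_iff _).2 h0))
      have h3 := abs_chi ⟨h1, h2⟩ one
      rw [dm_eq_zero_of_isZero one ((homologyFunctor _ 0).map_isZero
        ((isZero_obj_iff _).2 h0))] at h3
      rw [h3] at hs
      simp at hs
    obtain ⟨i, hi⟩ := exists_homology hs0
    have hph : phaseB repTorsionPair φ s.obj := s.property
    have hconc := concentrated repTorsionPair hph hi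
    have hF : torsionFree ((homologyFunctor _ i).obj s.obj.obj) := by
      rcases hph i hi with ⟨-, h2⟩ | ⟨-, h2⟩
      · exfalso
        have h3 : IsZero (((homologyFunctor _ i).obj s.obj.obj).obj one) := h2
        have : Subsingleton (((homologyFunctor _ i).obj s.obj.obj).obj one) :=
          ModuleCat.subsingleton_of_isZero
            ((forget₂ (FGModuleCat.{0} k) (ModuleCat.{0} k)).map_isZero h3)
        rw [abs_chi hconc one] at hs
        unfold dm at hs
        rw [Module.finrank_zero_of_subsingleton] at hs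
        simp at hs
      · exact h2
    obtain ⟨d1, d2⟩ := torsionFree_dm hF
    rw [pi_norm_le_iff_of_nonneg (abs_nonneg _)]
    intro j
    rw [vRep_cls, Real.norm_eq_abs]
    fin_cases j
    · change |(chi left s.obj : ℝ)| ≤ _
      rw [abs_chi hconc, abs_chi hconc]
      exact_mod_cast d1
    · exact le_rfl
    · change |(chi right s.obj : ℝ)| ≤ _
      rw [abs_chi hconc, abs_chi hconc]
      exact_mod_cast d2

lemma phase_half {c : DerivedCategory.Bounded (Rep3 (FGModuleCat.{0} k))}
    (hc : phaseB repTorsionPair (1 / 2) c) {i : ℤ}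
    (hi : ¬ IsZero ((homologyFunctor _ i).obj c.obj)) :
    i = 0 ∧ torsionFree ((homologyFunctor _ i).obj c.obj) := by
  rcases hc i hi with ⟨h1, h2⟩ | ⟨h1, h2⟩
  · exfalso
    have h3 : (2 * i : ℝ) = 1 := by linarith
    have h4 : 2 * i = 1 := by exact_mod_cast h3
    omega
  · refine ⟨?_, h2⟩
    have h3 : (i : ℝ) = 0 := by linarith
    exact_mod_cast h3

lemma mass_pos (c : DerivedCategory.Bounded (Rep3 (FGModuleCat.{0} k)))
    (hc : phaseB repTorsionPair (1 / 2) c) (h0 : ¬ IsZero c) : 0 < (laxPre (k := k)).mass c := by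
  obtain ⟨i, hi⟩ := exists_homology h0
  have hconc := concentrated repTorsionPair hc hi
  rw [laxPre_mass, abs_chi hconc]
  have h1 := phase_half hc hi
  have h2 : dm one ((homologyFunctor _ i).obj c.obj) ≠ 0 :=
    fun h => hi (isZero_of_torsionFree h1.2 h)
  exact_mod_cast Nat.pos_of_ne_zero h2

/-- the embedding of `A` in the bounded derived category -/
noncomputable def sgF : Rep3 (FGModuleCat.{0} k) ⥤
    DerivedCategory.Bounded (Rep3 (FGModuleCat.{0} k)) :=
  ObjectProperty.lift _ (singleFunctor _ 0) fun _ => ⟨⟨0, inferInstance⟩, ⟨0, inferInstance⟩⟩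

/-- the equivalence between torsion-free representations and the slice of phase `1/2` -/
noncomputable def sliceFunctor : TF (FGModuleCat.{0} k) ⥤
    (phaseB (repTorsionPair (B := FGModuleCat.{0} k)) (1 / 2)).FullSubcategory :=
  ObjectProperty.lift _ ((torsionFree (B := FGModuleCat.{0} k)).ι ⋙ sgF)
    fun M => phase_single_F repTorsionPair M.property

instance : (sgF (k := k)).Full := by unfold sgF; infer_instance
instance : (sgF (k := k)).Faithful := by unfold sgF; infer_instance
instance : (sliceFunctor (k := k)).Full := by unfold sliceFunctor; infer_instance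
instance : (sliceFunctor (k := k)).Faithful := by unfold sliceFunctor; infer_instance

instance : (sliceFunctor (k := k)).EssSurj where
  mem_essImage X := by
    have hX : phaseB (repTorsionPair (B := FGModuleCat.{0} k)) (1 / 2) X.obj := X.property
    have key : ∀ i, ¬ IsZero ((homologyFunctor _ i).obj X.obj.obj) → i = 0 :=
      fun i hi => (phase_half hX hi).1
    have h1 : X.obj.obj.IsLE 0 := (DerivedCategory.isLE_iff _ _).2 fun i hi => by
      by_contra hc; have := key i hc; omega
    have h2 : X.obj.obj.IsGE 0 := (DerivedCategory.isGE_iff _ _).2 fun i hi => by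
      by_contra hc; have := key i hc; omega
    obtain ⟨M, ⟨e⟩⟩ := DerivedCategory.exists_iso_singleFunctor_obj_of_isGE_of_isLE X.obj.obj 0
    have e' : (homologyFunctor _ 0).obj X.obj.obj ≅ M := (homologyFunctor _ 0).mapIso e ≪≫
      (singleFunctorCompHomologyFunctorIso _ 0).app M
    have hM : torsionFree M := by
      by_cases hz : IsZero M
      · exact (repTorsionPair (B := FGModuleCat.{0} k)).F_zero _ hz
      · have hi : ¬ IsZero ((homologyFunctor _ 0).obj X.obj.obj) :=
          fun h => hz (h.of_iso e'.symm)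
        have h3 := (phase_half hX hi).2
        have := (repTorsionPair (B := FGModuleCat.{0} k)).F_iso
        exact (repTorsionPair (B := FGModuleCat.{0} k)).F.prop_of_iso e' h3
    refine ⟨⟨M, hM⟩, ⟨?_⟩⟩
    refine (ObjectProperty.fullyFaithfulι _).preimageIso ?_
    refine (ObjectProperty.fullyFaithfulι _).preimageIso ?_
    exact e.symm

instance : (sliceFunctor (k := k)).IsEquivalence where

instance : Simple (FGModuleCat.of k k) where
  mono_isIso_iff_nonzero {Y} f hf := by
    constructor
    · intro hiso h0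
      have h1 : IsZero (FGModuleCat.of k k) := by
        rw [IsZero.iff_id_eq_zero]
        exact (IsIso.inv_hom_id f).symm.trans
          ((congrArg (fun t => inv f ≫ t) h0).trans comp_zero)
      have h2 : Subsingleton (FGModuleCat.of k k) :=
        ModuleCat.subsingleton_of_isZero
          ((forget₂ (FGModuleCat.{0} k) (ModuleCat.{0} k)).map_isZero h1)
      exact zero_ne_one (@Subsingleton.elim k h2 0 1)
    · intro h0
      have h1 : Mono ((forget₂ (FGModuleCat.{0} k) (ModuleCat.{0} k)).map f) := inferInstance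
      have h2 := (ModuleCat.mono_iff_injective _).1 h1
      have h3 : Function.Surjective f.hom.hom := by
        rw [← LinearMap.range_eq_top]
        rcases eq_bot_or_eq_top (LinearMap.range f.hom.hom) with h | h
        · exfalso
          apply h0
          ext x
          have : f.hom.hom x ∈ LinearMap.range f.hom.hom := ⟨x, rfl⟩
          rw [h] at this
          exact this
        · exact h
      have h4 : IsIso ((forget₂ (FGModuleCat.{0} k) (ModuleCat.{0} k)).map f) :=
        (ConcreteCategory.isIso_iff_bijective _).2 ⟨h2, h3⟩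
      exact isIso_of_reflects_iso f (forget₂ (FGModuleCat.{0} k) (ModuleCat.{0} k))

theorem not_jordanHolder_slice :
    ¬ JordanHolderProperty
      (phaseB (repTorsionPair (B := FGModuleCat.{0} k)) (1 / 2)).FullSubcategory := fun h =>
  not_jordanHolder_TF (FGModuleCat.of k k) (JordanHolderProperty.of_equivalence sliceFunctor h)

end Pool.Agent.H83.LaxStab
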