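import Pool.Agent.H83.LaxStab.HN

/-!
# The slicing of the bounded derived category attached to a torsion pair
-/

open CategoryTheory CategoryTheory.Limits CategoryTheory.Pretriangulated DerivedCategory
open scoped ZeroObject

set_option backward.defeqAttrib.useBackward true

namespace Pool.Agent.H83.LaxStab

universe w v u

/-- Torsion pairs in an abelian category. -/
structure TorsionPair (A : Type u) [Category.{v} A] [Abelian A] where
  T : ObjectProperty A
  F : ObjectProperty A
  T_iso : T.IsClosedUnderIsomorphisms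
  F_iso : F.IsClosedUnderIsomorphisms
  T_zero : ∀ X, IsZero X → T X
  F_zero : ∀ X, IsZero X → F X
  T_biprod : ∀ (X Y : A) (b : BinaryBicone X Y), Nonempty b.IsBilimit → T X → T Y → T b.pt
  F_biprod : ∀ (X Y : A) (b : BinaryBicone X Y), Nonempty b.IsBilimit → F X → F Y → F b.pt
  hom_zero : ∀ (X Y : A) (f : X ⟶ Y), T X → F Y → f = 0
  exists_ses : ∀ M : A, ∃ (X Y : A) (f : X ⟶ M) (g : M ⟶ Y) (w : f ≫ g = 0),
    (ShortComplex.mk f g w).ShortExact ∧ T X ∧ F Y

variable {A : Type u} [Category.{v} A] [Abelian A] [HasDerivedCategory.{w} A]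
  (τ : TorsionPair A)

/-- Objects of the derived category which are semistable of phase `φ`. -/
def phase (φ : ℝ) : ObjectProperty (DerivedCategory A) := fun X =>
  ∀ i : ℤ, ¬ IsZero ((homologyFunctor A i).obj X) →
    (φ = 1 - i ∧ τ.T ((homologyFunctor A i).obj X)) ∨
    (φ = 1 / 2 - i ∧ τ.F ((homologyFunctor A i).obj X))

lemma phase_of_iso {φ : ℝ} {X Y : DerivedCategory A} (e : X ≅ Y) (h : phase τ φ X) :
    phase τ φ Y := by
  intro i hi
  have e' := (homologyFunctor A i).mapIso e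
  have := τ.T_iso
  have := τ.F_iso
  rcases h i (fun h0 => hi (h0.of_iso e'.symm)) with ⟨h1, h2⟩ | ⟨h1, h2⟩
  · exact Or.inl ⟨h1, τ.T.prop_of_iso e' h2⟩
  · exact Or.inr ⟨h1, τ.F.prop_of_iso e' h2⟩

/-- homology of a shift -/
noncomputable def homShift (n i j : ℤ) (h : n + i = j) (X : DerivedCategory A) :
    (homologyFunctor A i).obj (X⟦n⟧) ≅ (homologyFunctor A j).obj X :=
  ((homologyFunctor A 0).shiftIso n i j h).app X

lemma phase_shift_of {φ : ℝ} (n : ℤ) {X : DerivedCategory A} (h : phase τ φ X) :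
    phase τ (φ + n) (X⟦n⟧) := by
  intro i hi
  have e' := homShift n i (n + i) rfl X
  have := τ.T_iso
  have := τ.F_iso
  rcases h (n + i) (fun h0 => hi (h0.of_iso e')) with ⟨h1, h2⟩ | ⟨h1, h2⟩
  · exact Or.inl ⟨by rw [h1]; push_cast; ring, τ.T.prop_of_iso e'.symm h2⟩
  · exact Or.inr ⟨by rw [h1]; push_cast; ring, τ.F.prop_of_iso e'.symm h2⟩

lemma phase_shift_iff {φ : ℝ} (n : ℤ) {X : DerivedCategory A} :
    phase τ (φ + n) (X⟦n⟧) ↔ phase τ φ X := by
  refine ⟨fun h => ?_, phase_shift_of τ n⟩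
  have h1 := phase_shift_of τ (-n) h
  have h2 : φ + n + ((-n : ℤ) : ℝ) = φ := by push_cast; ring
  rw [h2] at h1
  exact phase_of_iso τ ((shiftEquiv (DerivedCategory A) n).unitIso.symm.app X) h1

lemma isZero_of_homology {X : DerivedCategory A}
    (h : ∀ i, IsZero ((homologyFunctor A i).obj X)) : IsZero X := by
  have h1 : X.IsLE 0 := (isLE_iff X 0).2 (fun i _ => h i)
  have h2 : X.IsGE 1 := (isGE_iff X 1).2 (fun i _ => h i)
  exact TStructure.t.isZero X 0 1

lemma phase_of_isZero {φ : ℝ} {X : DerivedCategory A} (h : IsZero X) : phase τ φ X := by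
  intro i hi
  exact absurd ((homologyFunctor A i).map_isZero h) hi

/-- a semistable object is concentrated in one degree -/
lemma concentrated {φ : ℝ} {X : DerivedCategory A} (h : phase τ φ X) {i : ℤ}
    (hi : ¬ IsZero ((homologyFunctor A i).obj X)) :
    X.IsLE i ∧ X.IsGE i := by
  have key : ∀ j, j ≠ i → IsZero ((homologyFunctor A j).obj X) := by
    intro j hj
    by_contra hj'
    have h1 : (φ = 1 - i) ∨ (φ = 1 / 2 - i) := (h i hi).imp And.left And.left
    have h2 : (φ = 1 - j) ∨ (φ = 1 / 2 - j) := (h j hj').imp And.left And.left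
    rcases h1 with h1 | h1 <;> rcases h2 with h2 | h2
    · apply hj; have : (i : ℝ) = j := by linarith
      exact_mod_cast this.symm
    · have h3 : (2 * i : ℝ) = 2 * j + 1 := by linarith
      have h4 : 2 * i = 2 * j + 1 := by exact_mod_cast h3
      omega
    · have h3 : (2 * i + 1 : ℝ) = 2 * j := by linarith
      have h4 : 2 * i + 1 = 2 * j := by exact_mod_cast h3
      omega
    · apply hj; have : (i : ℝ) = j := by linarith
      exact_mod_cast this.symm
  refine ⟨(isLE_iff X i).2 fun j hj => key j (by omega), (isGE_iff X i).2 fun j hj =>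
    key j (by omega)⟩

lemma phase_single_T {M : A} (h : τ.T M) : phase τ 1 ((singleFunctor A 0).obj M) := by
  intro i hi
  have hi0 : i = 0 := by
    by_contra h0
    rcases lt_or_gt_of_ne h0 with h1 | h1
    · exact hi (DerivedCategory.isZero_of_isGE _ 0 i h1)
    · exact hi (DerivedCategory.isZero_of_isLE _ 0 i h1)
  subst hi0
  have := τ.T_iso
  exact Or.inl ⟨by simp, τ.T.prop_of_iso ((singleFunctorCompHomologyFunctorIso A 0).symm.app M) h⟩

lemma phase_single_F {M : A} (h : τ.F M) : phase τ (1 / 2) ((singleFunctor A 0).obj M) := by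
  intro i hi
  have hi0 : i = 0 := by
    by_contra h0
    rcases lt_or_gt_of_ne h0 with h1 | h1
    · exact hi (DerivedCategory.isZero_of_isGE _ 0 i h1)
    · exact hi (DerivedCategory.isZero_of_isLE _ 0 i h1)
  subst hi0
  have := τ.F_iso
  exact Or.inr ⟨by simp, τ.F.prop_of_iso ((singleFunctorCompHomologyFunctorIso A 0).symm.app M) h⟩

lemma phase_hom_zero {φ₁ φ₂ : ℝ} (hφ : φ₂ < φ₁) {X Y : DerivedCategory A} (f : X ⟶ Y)
    (hX : phase τ φ₁ X) (hY : phase τ φ₂ Y) : f = 0 := by
  by_cases hX0 : ∀ i, IsZero ((homologyFunctor A i).obj X)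
  · exact (isZero_of_homology hX0).eq_of_src _ _
  by_cases hY0 : ∀ i, IsZero ((homologyFunctor A i).obj Y)
  · exact (isZero_of_homology hY0).eq_of_tgt _ _
  push Not at hX0 hY0
  obtain ⟨i, hi⟩ := hX0
  obtain ⟨j, hj⟩ := hY0
  obtain ⟨hX1, hX2⟩ := concentrated τ hX hi
  obtain ⟨hY1, hY2⟩ := concentrated τ hY hj
  have a1 : φ₁ ≤ 1 - i := by
    rcases hX i hi with ⟨h, -⟩ | ⟨h, -⟩ <;> rw [h] <;> linarith
  have a2 : 1 / 2 - j ≤ φ₂ := by
    rcases hY j hj with ⟨h, -⟩ | ⟨h, -⟩ <;> rw [h] <;> linarith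
  have hij : i ≤ j := by
    have : (2 * i : ℝ) < 2 * j + 1 := by linarith
    have : 2 * i < 2 * j + 1 := by exact_mod_cast this
    omega
  rcases lt_or_eq_of_le hij with hij | rfl
  · exact TStructure.t.zero f i j hij
  · have b1 : φ₁ = 1 - i ∧ τ.T ((homologyFunctor A i).obj X) := by
      rcases hX i hi with h | ⟨h, -⟩
      · exact h
      · exfalso; linarith
    have b2 : φ₂ = 1 / 2 - i ∧ τ.F ((homologyFunctor A i).obj Y) := by
      rcases hY i hj with ⟨h, -⟩ | h
      · exfalso; linarith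
      · exact h
    obtain ⟨M, ⟨eM⟩⟩ := DerivedCategory.exists_iso_singleFunctor_obj_of_isGE_of_isLE X i
    obtain ⟨N, ⟨eN⟩⟩ := DerivedCategory.exists_iso_singleFunctor_obj_of_isGE_of_isLE Y i
    have := τ.T_iso
    have := τ.F_iso
    have hM : τ.T M := τ.T.prop_of_iso ((homologyFunctor A i).mapIso eM ≪≫
      (singleFunctorCompHomologyFunctorIso A i).app M) b1.2
    have hN : τ.F N := τ.F.prop_of_iso ((homologyFunctor A i).mapIso eN ≪≫
      (singleFunctorCompHomologyFunctorIso A i).app N) b2.2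
    obtain ⟨g, hg⟩ := (singleFunctor A i).map_surjective (eM.inv ≫ f ≫ eN.hom)
    have hg0 : g = 0 := τ.hom_zero _ _ g hM hN
    rw [hg0, Functor.map_zero] at hg
    have : f = eM.hom ≫ (eM.inv ≫ f ≫ eN.hom) ≫ eN.inv := by simp
    rw [this, ← hg]
    simp

end Pool.Agent.H83.LaxStab
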