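import Pool.Agent.H83.LaxStab.Torsion

/-!
# The slicing of the bounded derived category attached to a torsion pair
-/

open CategoryTheory CategoryTheory.Limits CategoryTheory.Pretriangulated DerivedCategory
open scoped ZeroObject

set_option backward.defeqAttrib.useBackward true

namespace Pool.Agent.H83.LaxStab

universe w v u

variable {A : Type u} [Category.{v} A] [Abelian A] [HasDerivedCategory.{w} A]
  (τ : TorsionPair A)

/-- the t-structure on the bounded derived category -/
noncomputable abbrev tB : Triangulated.TStructure (DerivedCategory.Bounded A) :=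
  (TStructure.t (C := A)).onBounded

/-- phases in the bounded derived category -/
def phaseB (φ : ℝ) : ObjectProperty (DerivedCategory.Bounded A) := fun X => phase τ φ X.obj

lemma isZero_obj_iff (X : DerivedCategory.Bounded A) : IsZero X.obj ↔ IsZero X := by
  constructor
  · intro h
    rw [IsZero.iff_id_eq_zero] at h ⊢
    apply DerivedCategory.Bounded.ι.map_injective
    rw [CategoryTheory.Functor.map_id, Functor.map_zero]
    exact h
  · intro h
    exact DerivedCategory.Bounded.ι.map_isZero h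

lemma phaseB_of_iso {φ : ℝ} {X Y : DerivedCategory.Bounded A} (e : X ≅ Y) (h : phaseB τ φ X) :
    phaseB τ φ Y :=
  phase_of_iso τ (DerivedCategory.Bounded.ι.mapIso e) h

/-- the shift of a bounded object -/
noncomputable def shiftObjIso (X : DerivedCategory.Bounded A) (n : ℤ) :
    (X⟦n⟧).obj ≅ X.obj⟦n⟧ :=
  ((DerivedCategory.Bounded.ι (C := A)).commShiftIso n).app X

lemma phaseB_shift_iff {φ : ℝ} (n : ℤ) {X : DerivedCategory.Bounded A} :
    phaseB τ (φ + n) (X⟦n⟧) ↔ phaseB τ φ X := by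
  refine Iff.trans ⟨fun h => ?_, fun h => ?_⟩ (phase_shift_iff τ n (X := X.obj))
  · exact phase_of_iso τ (shiftObjIso X n) h
  · exact phase_of_iso τ (shiftObjIso X n).symm h

/-- the object of the bounded derived category attached to an object of `A` -/
noncomputable def sg (M : A) : DerivedCategory.Bounded A :=
  ⟨(singleFunctor A 0).obj M, ⟨0, inferInstance⟩, ⟨0, inferInstance⟩⟩

lemma exists_triangle_of_ses {X M Y : A} {f : X ⟶ M} {g : M ⟶ Y} {wz : f ≫ g = 0}
    (h : (ShortComplex.mk f g wz).ShortExact) :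
    ∃ (a : sg X ⟶ sg M) (b : sg M ⟶ sg Y) (c : sg Y ⟶ (sg X)⟦(1 : ℤ)⟧),
      Triangle.mk a b c ∈ distTriang (DerivedCategory.Bounded A) := by
  have hT := h.singleTriangle_distinguished
  refine ⟨(TStructure.t (C := A)).bounded.fullyFaithfulι.preimage ((singleFunctor A 0).map f),
    (TStructure.t (C := A)).bounded.fullyFaithfulι.preimage ((singleFunctor A 0).map g),
    (TStructure.t (C := A)).bounded.fullyFaithfulι.preimage
      (h.singleδ ≫ (shiftObjIso (sg X) 1).inv), ?_⟩
  refine isomorphic_distinguished _ hT _ (Triangle.isoMk _ _ (Iso.refl _) (Iso.refl _)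
    (Iso.refl _) ?_ ?_ ?_)
  · simp [sg]
  · simp [sg]
  · simp [sg, shiftObjIso]

/-- the HN tower of an object concentrated in one degree -/
lemma exists_filt_concentrated (a : ℤ) (X : DerivedCategory.Bounded A) (h1 : X.obj.IsGE a)
    (h2 : X.obj.IsLE a) :
    ∃ L : List ℝ, (∀ ψ ∈ L, 1 / 2 - (a : ℝ) ≤ ψ ∧ ψ ≤ 1 - a) ∧ Filt (phaseB τ) L X := by
  -- shift to degree zero
  have k1 : (X.obj⟦a⟧).IsGE 0 := TStructure.t.isGE_shift _ a a 0 (by simp)
  have k2 : (X.obj⟦a⟧).IsLE 0 := TStructure.t.isLE_shift _ a a 0 (by simp)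
  obtain ⟨M, ⟨eM⟩⟩ := DerivedCategory.exists_iso_singleFunctor_obj_of_isGE_of_isLE (X.obj⟦a⟧) 0
  obtain ⟨T, F, f, g, wz, hS, hT, hF⟩ := τ.exists_ses M
  obtain ⟨p, q, r, hD⟩ := exists_triangle_of_ses hS
  have e0 : X⟦a⟧ ≅ sg M := (TStructure.t (C := A)).bounded.fullyFaithfulι.preimageIso
    (shiftObjIso X a ≪≫ eM)
  have e1 : X ≅ (sg M)⟦-a⟧ :=
    (shiftEquiv (DerivedCategory.Bounded A) a).unitIso.app X ≪≫
      (shiftFunctor (DerivedCategory.Bounded A) (-a)).mapIso e0
  have hD' := Triangle.shift_distinguished _ hD (-a)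
  have hphT : phaseB τ (1 + ((-a : ℤ) : ℝ)) ((sg T)⟦-a⟧) :=
    (phaseB_shift_iff τ (-a)).2 (phase_single_T τ hT)
  have hphF : phaseB τ (1 / 2 + ((-a : ℤ) : ℝ)) ((sg F)⟦-a⟧) :=
    (phaseB_shift_iff τ (-a)).2 (phase_single_F τ hF)
  obtain ⟨L1, hL1, hf1⟩ := Filt.single hphT
  obtain ⟨L2, hL2, hf2⟩ := Filt.single hphF
  refine ⟨L2 ++ L1, ?_, (Filt.concat hf1 hf2 ?_ _ _ _ hD').of_iso e1.symm⟩
  · intro ψ hψ
    rcases List.mem_append.1 hψ with h | h
    · rw [hL2 ψ h]; push_cast; constructor <;> linarith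
    · rw [hL1 ψ h]; push_cast; constructor <;> linarith
  · intro φ hφ ψ hψ
    rw [hL2 φ hφ, hL1 ψ hψ]
    linarith

lemma exists_filt_aux (n : ℕ) : ∀ (a : ℤ) (X : DerivedCategory.Bounded A),
    (tB (A := A)).IsGE X a → (tB (A := A)).IsLE X (a + n) →
    ∃ L : List ℝ, (∀ ψ ∈ L, ψ ≤ 1 - a) ∧ Filt (phaseB τ) L X := by
  induction n with
  | zero =>
    intro a X h1 h2
    have h2' : (tB (A := A)).IsLE X a := by simpa using h2
    obtain ⟨L, hL, hf⟩ := exists_filt_concentrated τ a X
      ((ObjectProperty.tStructure_isGE_iff _ _ _ _).1 h1)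
      ((ObjectProperty.tStructure_isLE_iff _ _ _ _).1 h2')
    exact ⟨L, fun ψ hψ => (hL ψ hψ).2, hf⟩
  | succ n ih =>
    intro a X h1 h2
    have hD := (tB (A := A)).triangleLEGE_distinguished a (a + 1) rfl X
    have hX'1 : (tB (A := A)).IsGE (((tB (A := A)).truncLE a).obj X) a := inferInstance
    have hX'2 : (tB (A := A)).IsLE (((tB (A := A)).truncLE a).obj X) a := inferInstance
    have hX''1 : (tB (A := A)).IsGE (((tB (A := A)).truncGE (a + 1)).obj X) (a + 1) :=
      inferInstance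
    have h2' : (tB (A := A)).IsLE X (a + 1 + n) := by
      have : a + 1 + (n : ℤ) = a + ((n + 1 : ℕ) : ℤ) := by push_cast; ring
      rw [this]; exact h2
    have hX''2 : (tB (A := A)).IsLE (((tB (A := A)).truncGE (a + 1)).obj X) (a + 1 + n) :=
      inferInstance
    obtain ⟨L', hL', hf'⟩ := exists_filt_concentrated τ a _
      ((ObjectProperty.tStructure_isGE_iff _ _ _ _).1 hX'1)
      ((ObjectProperty.tStructure_isLE_iff _ _ _ _).1 hX'2)
    obtain ⟨L'', hL'', hf''⟩ := ih (a + 1) _ hX''1 hX''2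
    refine ⟨L'' ++ L', ?_, Filt.concat hf' hf'' ?_ _ _ _ hD⟩
    · intro ψ hψ
      rcases List.mem_append.1 hψ with h | h
      · have := hL'' ψ h
        push_cast at this
        linarith
      · exact (hL' ψ h).2
    · intro φ hφ ψ hψ
      have b1 := hL'' φ hφ
      have b2 := (hL' ψ hψ).1
      push_cast at b1
      linarith

lemma exists_filt (X : DerivedCategory.Bounded A) : ∃ L : List ℝ, Filt (phaseB τ) L X := by
  obtain ⟨⟨a, ha⟩, ⟨b, hb⟩⟩ := X.property
  have h1 : (tB (A := A)).IsGE X (min a b) := (ObjectProperty.tStructure_isGE_iff _ _ _ _).2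
    ((TStructure.t (C := A)).isGE_of_ge X.obj (min a b) a (min_le_left _ _))
  have h2 : (tB (A := A)).IsLE X (min a b + (b - min a b).toNat) := by
    have : min a b + ((b - min a b).toNat : ℤ) = b := by
      have := min_le_right a b
      omega
    rw [this]
    exact (ObjectProperty.tStructure_isLE_iff _ _ _ _).2 hb
  obtain ⟨L, -, hL⟩ := exists_filt_aux τ _ _ X h1 h2
  exact ⟨L, hL⟩

lemma phaseB_biprod (φ : ℝ) (X Y : DerivedCategory.Bounded A) (b : BinaryBicone X Y)
    (hb : Nonempty b.IsBilimit) (hX : phaseB τ φ X) (hY : phaseB τ φ Y) : phaseB τ φ b.pt := by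
  obtain ⟨hb⟩ := hb
  have hTi := τ.T_iso
  have hFi := τ.F_iso
  intro i hi
  -- the functor `H^i` on the bounded derived category
  let H : DerivedCategory.Bounded A ⥤ A := DerivedCategory.Bounded.ι ⋙ homologyFunctor A i
  have hH : H.Additive := inferInstance
  have hHb : PreservesBinaryBiproduct X Y H := preservesBinaryBiproduct_of_preservesBiproduct H X Y
  let b' : BinaryBicone (H.obj X) (H.obj Y) := H.mapBinaryBicone b
  have hb' : b'.IsBilimit := isBinaryBilimitOfPreserves H hb
  change ¬ IsZero b'.pt at hi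
  change (φ = 1 - i ∧ τ.T b'.pt) ∨ (φ = 1 / 2 - i ∧ τ.F b'.pt)
  have key : ¬ IsZero (H.obj X) ∨ ¬ IsZero (H.obj Y) := by
    by_contra hc
    push Not at hc
    apply hi
    rw [IsZero.iff_id_eq_zero]
    apply hb'.isLimit.hom_ext
    intro j
    rcases j with ⟨j⟩
    cases j with
    | left => exact hc.1.eq_of_tgt _ _
    | right => exact hc.2.eq_of_tgt _ _
  have hX' := hX i
  have hY' := hY i
  change ¬ IsZero (H.obj X) → (φ = 1 - i ∧ τ.T (H.obj X)) ∨ (φ = 1 / 2 - i ∧ τ.F (H.obj X)) at hX'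
  change ¬ IsZero (H.obj Y) → (φ = 1 - i ∧ τ.T (H.obj Y)) ∨ (φ = 1 / 2 - i ∧ τ.F (H.obj Y)) at hY'
  have hφ : φ = 1 - i ∨ φ = 1 / 2 - i := by
    rcases key with k | k
    · exact (hX' k).imp And.left And.left
    · exact (hY' k).imp And.left And.left
  rcases hφ with hφ | hφ
  · left
    refine ⟨hφ, τ.T_biprod _ _ b' ⟨hb'⟩ ?_ ?_⟩
    · by_cases h0 : IsZero (H.obj X)
      · exact τ.T_zero _ h0
      · rcases hX' h0 with h | ⟨h, -⟩
        · exact h.2
        · exfalso; linarith
    · by_cases h0 : IsZero (H.obj Y)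
      · exact τ.T_zero _ h0
      · rcases hY' h0 with h | ⟨h, -⟩
        · exact h.2
        · exfalso; linarith
  · right
    refine ⟨hφ, τ.F_biprod _ _ b' ⟨hb'⟩ ?_ ?_⟩
    · by_cases h0 : IsZero (H.obj X)
      · exact τ.F_zero _ h0
      · rcases hX' h0 with ⟨h, -⟩ | h
        · exfalso; linarith
        · exact h.2
    · by_cases h0 : IsZero (H.obj Y)
      · exact τ.F_zero _ h0
      · rcases hY' h0 with ⟨h, -⟩ | h
        · exfalso; linarith
        · exact h.2

/-- The slicing of the bounded derived category attached to a torsion pair. -/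
def torsionSlicing : Slicing (DerivedCategory.Bounded A) where
  P φ := phaseB τ φ
  isClosedUnderIsomorphisms φ := ⟨fun e h => phaseB_of_iso τ e h⟩
  zero_mem φ X hX := phase_of_isZero τ ((isZero_obj_iff X).2 hX)
  biproduct_mem φ X Y b hb hX hY := phaseB_biprod τ φ X Y b hb hX hY
  shift_mem_iff φ X := by
    have := phaseB_shift_iff τ (φ := φ) 1 (X := X)
    simpa using this
  hom_eq_zero φ₁ φ₂ hφ X Y f hX hY := by
    apply DerivedCategory.Bounded.ι.map_injective
    rw [Functor.map_zero]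
    exact phase_hom_zero τ hφ _ hX hY
  exists_HN E _ := by
    obtain ⟨L, hL⟩ := exists_filt τ E
    obtain ⟨n, ph, obj, B, h1, -, h3, h4, h5⟩ := hL.exists_tower
    exact ⟨n, ph, obj, B, h1, h3, h4, h5⟩

end Pool.Agent.H83.LaxStab
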